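import Pool.Agent.H67.GW.Common

/-!
# CMB: no long combs
-/

set_option autoImplicit false

namespace Pool.Agent.H67.GW

open Pool.Agent.H55.GW

/-- union of the segments with index in `[i,j)` -/
def SG (Seg : ℕ → Set Vx) (i j : ℕ) : Set Vx := {x | ∃ k, i ≤ k ∧ k < j ∧ x ∈ Seg k}

theorem SG_mono {Seg : ℕ → Set Vx} {i j i' j' : ℕ} (h1 : i' ≤ i) (h2 : j ≤ j') :
    SG Seg i j ⊆ SG Seg i' j' := by
  rintro x ⟨k, hk1, hk2, hk3⟩
  exact ⟨k, by omega, by omega, hk3⟩

section
variable {D : Vx → Vx → Prop} {T : Set Vx} {n : ℕ} {a : Vx} {v t : ℕ → Vx} {Seg Ex : ℕ → Set Vx}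

theorem comb_walk (h : Comb D T n a v t Seg Ex) (i j : ℕ) (hij : i ≤ j) (hj : j < n) :
    RIn D (SG Seg i (j + 1)) (v i) (v j) := by
  induction j, hij using Nat.le_induction with
  | base => exact RIn.refl ⟨i, le_rfl, by omega, h.mem i hj⟩
  | succ j hij ih =>
    refine ((ih (by omega)).mono_set (SG_mono le_rfl (by omega))).trans ?_
    refine (h.step j hj).mono_set ?_
    rintro x (rfl | hx)
    · exact ⟨j, hij, by omega, h.mem j (by omega)⟩
    · exact ⟨j + 1, by omega, by omega, hx⟩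

theorem comb_start (h : Comb D T n a v t Seg Ex) (i : ℕ) (hi : i < n) :
    RIn D (SG Seg 0 (i + 1)) a (v i) := by
  refine ((h.start (by omega)).mono_set ?_).trans (comb_walk h 0 i (Nat.zero_le i) hi)
  intro x hx
  exact ⟨0, le_rfl, by omega, hx⟩

end

theorem cmb (hM : T_MEN) (hLO : T_LO) (hCLI : T_CLI) : T_CMB := by
  classical
  intro q hq φ hφ N
  obtain ⟨K, hK⟩ := lo_disj hLO q hq φ hφ
  set n' := 2 * N + K + φ q + 1 with hn'
  refine ⟨3 * n' + 1, ?_⟩
  intro M F m hG hR hm hE hFe hN a haE haB v t Seg Ex hC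
  -- basic facts on the comb
  have vne : ∀ i j, i < 3 * n' + 1 → j < 3 * n' + 1 → i ≠ j → v i ≠ v j := by
    intro i j hi hj hij he
    exact Set.disjoint_left.1 (hC.dSeg i hi j hj hij) (hC.mem i hi) (he ▸ hC.mem j hj)
  have vout : ∀ i, i < 3 * n' → v i ∉ F.snk m := by
    rintro i hi ⟨e, he, heq⟩
    have h1 := comb_walk hC i (i + 1) (by omega) (by omega)
    rcases h1.cases_head with h2 | ⟨z, hz, -⟩
    · exact vne i (i + 1) (by omega) (by omega) (by omega) h2
    · rw [heq] at hz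
      exact Frame.no_out_snk he z hz
  have vin : ∀ i, 0 < i → i < 3 * n' → v i ∈ F.inn := by
    intro i h0 hi
    have h1 := comb_walk hC (i - 1) i (by omega) (by omega)
    rcases h1.cases_tail with h2 | ⟨z, -, hz⟩
    · exact absurd h2 (vne (i - 1) i (by omega) (by omega) (by omega))
    · rcases inn_or_snk hz with h3 | h3
      · exact h3
      · exact absurd h3 (vout i hi)
  have tEx : ∀ i, i < 3 * n' → t i ∈ Ex i := by
    intro i hi
    rcases (hC.ex i (by omega)).2.right_mem with h1 | h1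
    · have h2 := (hC.ex i (by omega)).1
      rw [h1] at h2
      exact absurd h2 (vout i hi)
    · exact h1
  have exit : ∀ i, i < 3 * n' → RIn (F.D m) (insert (v i) (Ex i)) (v i) (t i) := fun i hi =>
    (hC.ex i (by omega)).2
  -- real ends
  have hte : ∀ i, ∃ e, i < 3 * n' → e ∈ F.base m ∧ t i = Sum.inl e := by
    intro i
    by_cases hi : i < 3 * n'
    · obtain ⟨e, he, heq⟩ := (hC.ex i (by omega)).1
      exact ⟨e, fun _ => ⟨he, heq⟩⟩
    · exact ⟨0, fun h => absurd h hi⟩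
  choose te hte using hte
  -- disjointness of blocks
  have dSS : ∀ i j i' j', j ≤ i' → j' ≤ 3 * n' + 1 → Disjoint (SG Seg i j) (SG Seg i' j') := by
    intro i j i' j' h1 h2
    rw [Set.disjoint_left]
    rintro x ⟨k, hk1, hk2, hk3⟩ ⟨l, hl1, hl2, hl3⟩
    exact Set.disjoint_left.1 (hC.dSeg k (by omega) l (by omega) (by omega)) hk3 hl3
  have dSX : ∀ i j k, j ≤ 3 * n' + 1 → k < 3 * n' + 1 → Disjoint (SG Seg i j) (Ex k) := by
    intro i j k h1 h2
    rw [Set.disjoint_left]
    rintro x ⟨l, hl1, hl2, hl3⟩ hx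
    exact Set.disjoint_left.1 (hC.dSE l (by omega) k h2) hl3 hx
  -- the middle vertices
  set X : Finset Vx := (Finset.Ico n' (2 * n')).image v with hX
  have cX : X.card = n' := by
    rw [hX, Finset.card_image_of_injOn, Nat.card_Ico]
    · omega
    · intro i hi j hj hij
      by_contra hne
      have h1 := Finset.mem_Ico.1 (Finset.mem_coe.1 hi)
      have h2 := Finset.mem_Ico.1 (Finset.mem_coe.1 hj)
      exact vne i j (by omega) (by omega) hne hij
  have hXinn : ∀ x ∈ X, x ∈ F.inn := by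
    intro x hx
    obtain ⟨i, hi, rfl⟩ := Finset.mem_image.1 hx
    have h1 := Finset.mem_Ico.1 hi
    exact vin i (by omega) (by omega)
  have hL : Lnk (F.D m) (q + 1) (F.src m) (X : Set Vx) := by
    apply menF hM src_uni (fun x hx => inn_uni (hXinn x hx))
    intro S hS
    by_contra hlt
    have h1 := hFe X (fun x hx => Or.inl (hXinn x hx)) S hS
    have h2 : φ S.card ≤ φ q := hφ (by omega)
    omega
  obtain ⟨x, y, σ, hσ1, hσ2, hσ3⟩ := lnk_trim hL
  have hidx : ∀ k, ∃ i, n' ≤ i ∧ i < 2 * n' ∧ y k = v i := by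
    intro k
    obtain ⟨i, hi, he⟩ := Finset.mem_image.1 (Finset.mem_coe.1 (hσ1 k).2.1)
    have h1 := Finset.mem_Ico.1 hi
    exact ⟨i, h1.1, h1.2, he.symm⟩
  choose ix hix1 hix2 hix3 using hidx
  have hα : ∀ k, ∃ e, e ∈ F.E ∧ e ∉ F.base m ∧ x k = Sum.inl e := by
    intro k
    obtain ⟨e, h1, h2, h3⟩ := (hσ1 k).1
    exact ⟨e, h1, h2, h3⟩
  choose α hα1 hα2 hα3 using hα
  have σw : ∀ k, RIn (F.D m) (σ k) (Sum.inl (α k)) (v (ix k)) := fun k => by
    rw [← hα3, ← hix3]; exact (hσ1 k).2.2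
  have σl : ∀ k, ∀ u ∈ σ k, RIn (F.D m) (σ k) (Sum.inl (α k)) u := fun k u hu => by
    rw [← hα3]; exact (hσ2 k u hu).1
  have αinj : Function.Injective α := by
    intro k l hkl
    by_contra hne
    exact Set.disjoint_left.1 (hσ3 k l hne) (σw k).left_mem (hkl ▸ (σw l).left_mem)
  set Q1 : Set Vx := SG Seg 0 n' with hQ1
  set Q2 : Set Vx := SG Seg n' (3 * n') with hQ2
  have hn0 : 0 < n' := by omega
  -- walks out of Q1
  have walkQ1 : ∀ u ∈ Q1, RIn (F.D m) (Q1 ∪ Ex (n' - 1)) u (t (n' - 1)) := by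
    rintro u ⟨i, -, hi, hu⟩
    have s1 := (hC.seg i (by omega) u hu).mono_set (T := Q1 ∪ Ex (n' - 1))
      (fun z hz => Or.inl ⟨i, Nat.zero_le i, hi, hz⟩)
    have s2 := (comb_walk hC i (n' - 1) (by omega) (by omega)).mono_set (T := Q1 ∪ Ex (n' - 1))
      (fun z hz => Or.inl (SG_mono (Nat.zero_le i) (by omega) hz))
    have s3 := (exit (n' - 1) (by omega)).mono_set (T := Q1 ∪ Ex (n' - 1)) (by
      rintro z (rfl | hz)
      · exact Or.inl ⟨n' - 1, by omega, by omega, hC.mem _ (by omega)⟩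
      · exact Or.inr hz)
    exact (s1.trans s2).trans s3
  -- walks through the end
  have walkQ2 : ∀ k, ∀ j, 2 * n' ≤ j → j < 3 * n' →
      RIn (F.D m) (σ k ∪ Q2 ∪ Ex j) (Sum.inl (α k)) (t j) := by
    intro k j hj1 hj2
    have s1 := (σw k).mono_set (T := σ k ∪ Q2 ∪ Ex j) (fun z hz => Or.inl (Or.inl hz))
    have h1 := hix1 k
    have h2 := hix2 k
    have s2 := (comb_walk hC (ix k) j (by omega) (by omega)).mono_set (T := σ k ∪ Q2 ∪ Ex j)
      (fun z hz => Or.inl (Or.inr (SG_mono h1 (by omega) hz)))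
    have s3 := (exit j hj2).mono_set (T := σ k ∪ Q2 ∪ Ex j) (by
      rintro z (rfl | hz)
      · exact Or.inl (Or.inr ⟨j, by omega, by omega, hC.mem _ (by omega)⟩)
      · exact Or.inr hz)
    exact (s1.trans s2).trans s3
  -- few of the walks meet Q1
  set B : Finset (Fin (q + 1)) := Finset.univ.filter (fun k => ¬ Disjoint (σ k) Q1) with hB
  have cB : B.card ≤ q - 1 := by
    by_contra hlt
    have hq1 : q ≤ B.card := by omega
    have hb := hte (n' - 1) (by omega)
    have hb' := hte (3 * n' - 1) (by omega)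
    have hbne : te (n' - 1) ≠ te (3 * n' - 1) := by
      intro he
      have h1 := tEx (n' - 1) (by omega)
      have h2 := tEx (3 * n' - 1) (by omega)
      rw [hb.2] at h1
      rw [hb'.2, ← he] at h2
      exact Set.disjoint_left.1 (hC.dEx (n' - 1) (by omega) (3 * n' - 1) (by omega) (by omega)) h1 h2
    have key1 : ∀ k ∈ B, RIn (F.D m) (σ k ∪ Q1 ∪ Ex (n' - 1)) (Sum.inl (α k))
        (Sum.inl (te (n' - 1))) := by
      intro k hk
      obtain ⟨u, hu1, hu2⟩ := Set.not_disjoint_iff.1 (Finset.mem_filter.1 hk).2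
      rw [← hb.2]
      refine ((σl k u hu1).mono_set fun z hz => Or.inl (Or.inl hz)).trans
        ((walkQ1 u hu2).mono_set ?_)
      rintro z (hz | hz)
      · exact Or.inl (Or.inr hz)
      · exact Or.inr hz
    have key2 : ∀ k, RIn (F.D m) (σ k ∪ Q2 ∪ Ex (3 * n' - 1)) (Sum.inl (α k))
        (Sum.inl (te (3 * n' - 1))) := by
      intro k
      rw [← hb'.2]
      exact walkQ2 k (3 * n' - 1) (by omega) (by omega)
    obtain ⟨z, T', hT'1, hT'2, hT'3⟩ := hCLI q hq M F m hG hR hm (te (n' - 1)) (te (3 * n' - 1))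
      hbne hb.1 hb'.1 (B.image α) (by
        intro e he
        obtain ⟨k, hk, rfl⟩ := Finset.mem_image.1 he
        exact ⟨hα1 k, hα2 k, (key1 k hk).mono_set (Set.subset_univ _),
          (key2 k).mono_set (Set.subset_univ _)⟩) 1 (by
        rw [Finset.card_image_of_injective _ αinj]; omega)
    obtain ⟨e1, he1, e2, he2, hne⟩ := Finset.one_lt_card.1 hT'2
    have hmem : ∀ e ∈ T', ∃ k ∈ B, α k = e ∧ z ∈ σ k := by
      intro e he
      obtain ⟨k, hk, hke⟩ := Finset.mem_image.1 (hT'1 he)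
      refine ⟨k, hk, hke, ?_⟩
      have hs := hT'3 e he
      rw [← hke] at hs
      obtain ⟨z1, hz1, hz1'⟩ := hs.exists_mem (Set.mem_singleton _) (Or.inl rfl) (key1 k hk)
      obtain ⟨z2, hz2, hz2'⟩ := hs.exists_mem (Set.mem_singleton _) (Or.inr rfl) (key2 k)
      rw [Set.mem_singleton_iff.1 hz1] at hz1'
      rw [Set.mem_singleton_iff.1 hz2] at hz2'
      by_contra hzσ
      rcases hz1' with (h1 | h1) | h1
      · exact hzσ h1
      · rcases hz2' with (h2 | h2) | h2
        · exact hzσ h2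
        · exact Set.disjoint_left.1 (dSS 0 n' n' (3 * n') le_rfl (by omega)) h1 h2
        · exact Set.disjoint_left.1 (dSX 0 n' (3 * n' - 1) (by omega) (by omega)) h1 h2
      · rcases hz2' with (h2 | h2) | h2
        · exact hzσ h2
        · exact Set.disjoint_left.1 (dSX n' (3 * n') (n' - 1) (by omega) (by omega)) h2 h1
        · exact Set.disjoint_left.1 (hC.dEx (n' - 1) (by omega) (3 * n' - 1) (by omega)
            (by omega)) h1 h2
    obtain ⟨k1, -, hk1, hz1⟩ := hmem e1 he1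
    obtain ⟨k2, -, hk2, hz2⟩ := hmem e2 he2
    have hkne : k1 ≠ k2 := by
      rintro rfl
      exact hne (hk1.symm.trans hk2)
    exact Set.disjoint_left.1 (hσ3 k1 k2 hkne) hz1 hz2
  -- two walks avoiding Q1
  have c2 : 1 < (Finset.univ \ B).card := by
    have h3 := Finset.le_card_sdiff B (Finset.univ : Finset (Fin (q + 1)))
    rw [Finset.card_univ, Fintype.card_fin] at h3
    omega
  obtain ⟨k1, hk1, k2, hk2, hk12⟩ := Finset.one_lt_card.1 c2
  have av : ∀ k ∈ Finset.univ \ B, Disjoint (σ k) Q1 := by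
    intro k hk
    by_contra hc
    exact (Finset.mem_sdiff.1 hk).2 (Finset.mem_filter.2 ⟨Finset.mem_univ _, hc⟩)
  have aQ1 : (Sum.inl a : Vx) ∈ Q1 := ⟨0, le_rfl, by omega, (hC.start (by omega)).left_mem⟩
  have ane : ∀ k ∈ Finset.univ \ B, a ≠ α k := by
    intro k hk he
    exact Set.disjoint_left.1 (av k hk) (σw k).left_mem (he ▸ aQ1)
  -- few exits meet both
  set J : Finset ℕ := (Finset.range n').filter (fun i => ¬ Disjoint (Ex i) (σ k1) ∧
    ¬ Disjoint (Ex i) (σ k2)) with hJ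
  have cJ : J.card ≤ K := by
    refine hK M F m hG hR hm hE (α k1) (α k2) (fun he => hk12 (αinj he)) (hα1 k1) (hα2 k1)
      (hα1 k2) (hα2 k2) (σ k1) (σ k2) (hσ3 k1 k2 hk12) ℕ J t ?_ Ex ?_ ?_ ?_ ?_
    · intro i hi
      have hi' := Finset.mem_range.1 (Finset.mem_filter.1 hi).1
      exact Or.inr (hC.ex i (by omega)).1
    · intro i hi
      have hi' := Finset.mem_range.1 (Finset.mem_filter.1 hi).1
      exact tEx i (by omega)
    · intro i hi
      have hi' := Finset.mem_range.1 (Finset.mem_filter.1 hi).1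
      obtain ⟨u, hu1, hu2⟩ := Set.not_disjoint_iff.1 (Finset.mem_filter.1 hi).2.1
      exact ((σl k1 u hu2).mono_set Set.subset_union_left).trans
        ((hC.exr i (by omega) u hu1).mono_set Set.subset_union_right)
    · intro i hi
      have hi' := Finset.mem_range.1 (Finset.mem_filter.1 hi).1
      obtain ⟨u, hu1, hu2⟩ := Set.not_disjoint_iff.1 (Finset.mem_filter.1 hi).2.2
      exact ((σl k2 u hu2).mono_set Set.subset_union_left).trans
        ((hC.exr i (by omega) u hu1).mono_set Set.subset_union_right)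
    · intro i hi j hj hij
      have hi' := Finset.mem_range.1 (Finset.mem_filter.1 hi).1
      have hj' := Finset.mem_range.1 (Finset.mem_filter.1 hj).1
      exact hC.dEx i (by omega) j (by omega) hij
  set G : Fin (q + 1) → Finset ℕ := fun k =>
    (Finset.range n').filter (fun i => Disjoint (Ex i) (σ k)) with hGd
  have cG : 2 * N ≤ (G k1).card + (G k2).card := by
    have h1 : Finset.range n' \ J ⊆ G k1 ∪ G k2 := by
      intro i hi
      obtain ⟨hi1, hi2⟩ := Finset.mem_sdiff.1 hi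
      rw [Finset.mem_union, hGd]
      simp only [Finset.mem_filter]
      by_contra hc
      push Not at hc
      exact hi2 (Finset.mem_filter.2 ⟨hi1, fun h => hc.1 hi1 h, fun h => hc.2 hi1 h⟩)
    have h2 := Finset.card_le_card h1
    have h3 := Finset.card_union_le (G k1) (G k2)
    have h4 := Finset.le_card_sdiff J (Finset.range n')
    rw [Finset.card_range] at h4
    omega
  have hpick : ∃ k ∈ Finset.univ \ B, N ≤ (G k).card := by
    by_cases h1 : N ≤ (G k1).card
    · exact ⟨k1, hk1, h1⟩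
    · exact ⟨k2, hk2, by omega⟩
  obtain ⟨k, hk, hGk⟩ := hpick
  -- the two trees
  set A1 : Set Vx := Q1 ∪ ⋃ i ∈ G k, Ex i with hA1
  set A2 : Set Vx := (σ k ∪ Q2) ∪ ⋃ i ∈ Finset.Ico (2 * n') (3 * n'), Ex i with hA2
  have hGk1 : ∀ i ∈ G k, i < n' ∧ Disjoint (Ex i) (σ k) := fun i hi =>
    ⟨Finset.mem_range.1 (Finset.mem_filter.1 hi).1, (Finset.mem_filter.1 hi).2⟩
  have hA : Disjoint A1 A2 := by
    rw [Set.disjoint_left]
    intro u hu1 hu2
    rcases hu1 with hu1 | hu1 <;> rcases hu2 with (hu2 | hu2) | hu2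
    · exact Set.disjoint_left.1 (av k hk) hu2 hu1
    · exact Set.disjoint_left.1 (dSS 0 n' n' (3 * n') le_rfl (by omega)) hu1 hu2
    · obtain ⟨l, hl, hu2⟩ := Set.mem_iUnion₂.1 hu2
      have := Finset.mem_Ico.1 hl
      exact Set.disjoint_left.1 (dSX 0 n' l (by omega) (by omega)) hu1 hu2
    · obtain ⟨i, hi, hu1⟩ := Set.mem_iUnion₂.1 hu1
      exact Set.disjoint_left.1 (hGk1 i hi).2 hu1 hu2
    · obtain ⟨i, hi, hu1⟩ := Set.mem_iUnion₂.1 hu1
      have := (hGk1 i hi).1
      exact Set.disjoint_left.1 (dSX n' (3 * n') i (by omega) (by omega)) hu2 hu1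
    · obtain ⟨i, hi, hu1⟩ := Set.mem_iUnion₂.1 hu1
      obtain ⟨l, hl, hu2⟩ := Set.mem_iUnion₂.1 hu2
      have h1 := Finset.mem_Ico.1 hl
      have h2 := (hGk1 i hi).1
      exact Set.disjoint_left.1 (hC.dEx i (by omega) l (by omega) (by omega)) hu1 hu2
  have wa : ∀ i ∈ G k, RIn (F.D m) A1 (Sum.inl a) (t i) := by
    intro i hi
    have h2 := (hGk1 i hi).1
    refine ((comb_start hC i (by omega)).mono_set ?_).trans ((exit i (by omega)).mono_set ?_)
    · intro z hz
      exact Or.inl (SG_mono le_rfl (by omega) hz)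
    · rintro z (rfl | hz)
      · exact Or.inl ⟨i, Nat.zero_le i, h2, hC.mem i (by omega)⟩
      · exact Or.inr (Set.mem_iUnion₂.2 ⟨i, hi, hz⟩)
  have wb : ∀ i ∈ Finset.Ico (2 * n') (3 * n'), RIn (F.D m) A2 (Sum.inl (α k)) (t i) := by
    intro i hi
    have h1 := Finset.mem_Ico.1 hi
    refine (walkQ2 k i h1.1 h1.2).mono_set ?_
    rintro z (hz | hz)
    · exact Or.inl hz
    · exact Or.inr (Set.mem_iUnion₂.2 ⟨i, hi, hz⟩)
  have teinj : ∀ i, i < 3 * n' → ∀ j, j < 3 * n' → te i = te j → i = j := by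
    intro i hi j hj he
    by_contra hne
    have h1 := tEx i hi
    have h2 := tEx j hj
    rw [(hte i hi).2] at h1
    rw [(hte j hj).2, ← he] at h2
    exact Set.disjoint_left.1 (hC.dEx i (by omega) j (by omega) hne) h1 h2
  have hRT : RTP F m a (α k) {v | Sum.inr v ∈ A1} {v | Sum.inr v ∈ A2} (te '' (G k : Set ℕ))
      (te '' (Finset.Ico (2 * n') (3 * n') : Finset ℕ)) := by
    refine ⟨ane k hk, ⟨haE, haB⟩, ⟨hα1 k, hα2 k⟩, ?_, ?_, ?_, ?_, ?_, ?_⟩
    · rintro _ ⟨i, hi, rfl⟩
      have := (hGk1 i hi).1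
      exact (hte i (by omega)).1
    · rintro _ ⟨i, hi, rfl⟩
      have := Finset.mem_Ico.1 (Finset.mem_coe.1 hi)
      exact (hte i (by omega)).1
    · rw [Set.disjoint_left]
      rintro _ ⟨i, hi, rfl⟩ ⟨j, hj, he⟩
      have h1 := (hGk1 i hi).1
      have h2 := Finset.mem_Ico.1 (Finset.mem_coe.1 hj)
      have := teinj j (by omega) i (by omega) he
      omega
    · rw [Set.disjoint_left]
      intro v hv1 hv2
      exact Set.disjoint_left.1 hA hv1 hv2
    · rintro _ ⟨i, hi, rfl⟩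
      have h1 := (hGk1 i hi).1
      have h2 := wa i hi
      rw [(hte i (by omega)).2] at h2
      exact real_walk haB (hte i (by omega)).1 h2 (fun v hv => hv)
    · rintro _ ⟨i, hi, rfl⟩
      have h1 := Finset.mem_Ico.1 (Finset.mem_coe.1 hi)
      have h2 := wb i hi
      rw [(hte i (by omega)).2] at h2
      exact real_walk (hα2 k) (hte i (by omega)).1 h2 (fun v hv => hv)
  rcases hN _ _ _ _ _ _ hRT with h3 | h3
  · rw [Set.ncard_image_of_injOn, Set.ncard_coe_finset] at h3
    · omega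
    · intro i hi j hj he
      have h1 := (hGk1 i hi).1
      have h2 := (hGk1 j hj).1
      exact teinj i (by omega) j (by omega) he
  · rw [Set.ncard_image_of_injOn, Set.ncard_coe_finset, Nat.card_Ico] at h3
    · omega
    · intro i hi j hj he
      have h1 := Finset.mem_Ico.1 (Finset.mem_coe.1 hi)
      have h2 := Finset.mem_Ico.1 (Finset.mem_coe.1 hj)
      exact teinj i (by omega) j (by omega) he

end Pool.Agent.H67.GW
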