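import Pool.Agent.H67.GW.Common

/-!
# LI: few vertices are linked to both of two disjoint trees
-/

set_option autoImplicit false

namespace Pool.Agent.H67.GW

open Pool.Agent.H55.GW

/-- every vertex of a tree is reached from the root inside the tree -/
theorem tree_reach {D : Vx → Vx → Prop} {a : ℕ} {P : Set ℕ} {N : Set Vx} {par : Vx → Vx}
    (h : OTree D (Sum.inl a) (Sum.inl '' P) N par) :
    ∀ v ∈ trS a P N, RIn D (trS a P N) (Sum.inl a) v := by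
  have ha : (Sum.inl a : Vx) ∈ trS a P N := Or.inl (Or.inl rfl)
  have key : ∀ k : ℕ, ∀ v : Vx, (v ∈ N ∨ v ∈ Sum.inl '' P) → par^[k] v = Sum.inl a →
      RIn D (trS a P N) (Sum.inl a) v := by
    intro k
    induction k with
    | zero =>
      intro v hv hk
      rw [Function.iterate_zero, id] at hk
      rw [hk]
      exact RIn.refl ha
    | succ k ih =>
      intro v hv hk
      rw [Function.iterate_succ_apply] at hk
      obtain ⟨h1, h2⟩ := h.arc v hv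
      have hvT : v ∈ trS a P N := by
        rcases hv with hv | hv
        · exact Or.inl (Or.inr hv)
        · exact Or.inr hv
      rcases h1 with h1 | h1
      · exact (ih _ (Or.inl h1) hk).tail h2 hvT
      · rw [h1] at h2
        exact RIn.single h2 ha hvT
  rintro v ((hv | hv) | hv)
  · rw [Set.mem_singleton_iff.1 hv]
    exact RIn.refl ha
  · obtain ⟨k, hk⟩ := h.root v (Or.inl hv)
    exact key k v (Or.inl hv) hk
  · obtain ⟨k, hk⟩ := h.root v (Or.inr hv)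
    exact key k v (Or.inr hv) hk

/-- two disjoint trees are disjoint -/
theorem two_disj {F : Frame} {m : ℕ → Vx} {a₁ a₂ : ℕ} {P₁ P₂ : Set ℕ} {N₁ N₂ : Set Vx}
    {par₁ par₂ : Vx → Vx} (h : Two F m a₁ a₂ P₁ P₂ N₁ N₂ par₁ par₂) :
    Disjoint (trS a₁ P₁ N₁) (trS a₂ P₂ N₂) := by
  rw [Set.disjoint_left]
  have i1 : ∀ e, (Sum.inl e : Vx) ∉ N₁ := by
    intro e he
    obtain ⟨v, -, hv⟩ := h.inn₁ he
    exact absurd hv (by simp)
  have i2 : ∀ e, (Sum.inl e : Vx) ∉ N₂ := by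
    intro e he
    obtain ⟨v, -, hv⟩ := h.inn₂ he
    exact absurd hv (by simp)
  rintro x ((hx | hx) | hx) ((hy | hy) | hy)
  · rw [Set.mem_singleton_iff.1 hx] at hy
    exact h.ne (by simpa using Set.mem_singleton_iff.1 hy)
  · rw [Set.mem_singleton_iff.1 hx] at hy
    exact i2 _ hy
  · rw [Set.mem_singleton_iff.1 hx] at hy
    obtain ⟨e, he, heq⟩ := hy
    have : e = a₁ := by simpa using heq
    exact h.src₁.2 (this ▸ h.snk₂ he)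
  · rw [Set.mem_singleton_iff.1 hy] at hx
    exact i1 _ hx
  · exact Set.disjoint_left.1 h.dN hx hy
  · obtain ⟨e, he, rfl⟩ := hy
    exact i1 _ hx
  · rw [Set.mem_singleton_iff.1 hy] at hx
    obtain ⟨e, he, heq⟩ := hx
    have : e = a₂ := by simpa using heq
    exact h.src₂.2 (this ▸ h.snk₁ he)
  · obtain ⟨e, he, rfl⟩ := hx
    exact i2 _ hy
  · obtain ⟨e, he, rfl⟩ := hx
    obtain ⟨e', he', heq⟩ := hy
    have : e' = e := by simpa using heq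
    exact Set.disjoint_left.1 h.dP he (this ▸ he')

/-- a nontrivial walk ends at an internal vertex or a sink -/
theorem end_inn {F : Frame} {m : ℕ → Vx} {S : Set Vx} {x y : Vx} (h : RIn (F.D m) S x y)
    (hne : x ≠ y) : y ∈ F.inn ∨ y ∈ F.snk m := by
  rcases h.cases_tail with h1 | ⟨z, -, hz⟩
  · exact absurd h1 hne
  · exact inn_or_snk hz

/-- trimmed bundles -/
structure Bdl (F : Frame) (m : ℕ → Vx) (T₁ T₂ : Set Vx) {ι : Type} (α : ι → ℕ)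
    (w d₁ d₂ : ι → Vx) (σ R₁ R₂ : ι → Set Vx) : Prop where
  hα : ∀ i, α i ∈ F.E ∧ α i ∉ F.base m
  hσ : ∀ i, RIn (F.D m) (σ i) (Sum.inl (α i)) (w i)
  tσ : ∀ i, ∀ u ∈ σ i, RIn (F.D m) (σ i) (Sum.inl (α i)) u ∧ RIn (F.D m) (σ i) u (w i)
  h₁ : ∀ i, RIn (F.D m) (R₁ i) (w i) (d₁ i)
  t₁ : ∀ i, ∀ u ∈ R₁ i, RIn (F.D m) (R₁ i) (w i) u ∧ RIn (F.D m) (R₁ i) u (d₁ i)
  h₂ : ∀ i, RIn (F.D m) (R₂ i) (w i) (d₂ i)
  t₂ : ∀ i, ∀ u ∈ R₂ i, RIn (F.D m) (R₂ i) (w i) u ∧ RIn (F.D m) (R₂ i) u (d₂ i)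
  m₁ : ∀ i, d₁ i ∈ T₁
  m₂ : ∀ i, d₂ i ∈ T₂
  wT : ∀ i, w i ∉ T₁ ∪ T₂
  c₁ : ∀ i, ∀ x ∈ T₁ ∪ T₂, x ∈ R₁ i → x = d₁ i
  c₂ : ∀ i, ∀ x ∈ T₁ ∪ T₂, x ∈ R₂ i → x = d₂ i
  dσ : ∀ i j, i ≠ j → Disjoint (σ i) (σ j)
  dR₁ : ∀ i j, i ≠ j → Disjoint (R₁ i) (R₁ j)
  dR₂ : ∀ i j, i ≠ j → Disjoint (R₂ i) (R₂ j)

section
variable {F : Frame} {m : ℕ → Vx} {T₁ T₂ : Set Vx} {ι : Type} {α : ι → ℕ}
    {w d₁ d₂ : ι → Vx} {σ R₁ R₂ : ι → Set Vx}

theorem Bdl.swap (h : Bdl F m T₁ T₂ α w d₁ d₂ σ R₁ R₂) : Bdl F m T₂ T₁ α w d₂ d₁ σ R₂ R₁ :=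
  ⟨h.hα, h.hσ, h.tσ, h.h₂, h.t₂, h.h₁, h.t₁, h.m₂, h.m₁, fun i => by
    rw [Set.union_comm]; exact h.wT i, fun i x hx => h.c₂ i x (by rwa [Set.union_comm]),
    fun i x hx => h.c₁ i x (by rwa [Set.union_comm]), h.dσ, h.dR₂, h.dR₁⟩

theorem Bdl.comp {κ : Type} (h : Bdl F m T₁ T₂ α w d₁ d₂ σ R₁ R₂) (g : κ → ι)
    (hg : Function.Injective g) : Bdl F m T₁ T₂ (fun i => α (g i)) (fun i => w (g i))
      (fun i => d₁ (g i)) (fun i => d₂ (g i)) (fun i => σ (g i)) (fun i => R₁ (g i))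
      (fun i => R₂ (g i)) :=
  ⟨fun _ => h.hα _, fun _ => h.hσ _, fun _ => h.tσ _, fun _ => h.h₁ _, fun _ => h.t₁ _,
    fun _ => h.h₂ _, fun _ => h.t₂ _, fun _ => h.m₁ _, fun _ => h.m₂ _, fun _ => h.wT _,
    fun _ => h.c₁ _, fun _ => h.c₂ _, fun _ _ hij => h.dσ _ _ (fun he => hij (hg he)),
    fun _ _ hij => h.dR₁ _ _ (fun he => hij (hg he)),
    fun _ _ hij => h.dR₂ _ _ (fun he => hij (hg he))⟩

theorem Bdl.αinj (h : Bdl F m T₁ T₂ α w d₁ d₂ σ R₁ R₂) {i j : ι} (hij : i ≠ j) :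
    α i ≠ α j := by
  intro he
  exact Set.disjoint_left.1 (h.dσ i j hij) (h.hσ i).left_mem (he ▸ (h.hσ j).left_mem)

theorem Bdl.end₁ (h : Bdl F m T₁ T₂ α w d₁ d₂ σ R₁ R₂) (i : ι) :
    d₁ i ∈ F.inn ∨ d₁ i ∈ F.snk m :=
  end_inn (h.h₁ i) fun he => h.wT i (Or.inl (he ▸ h.m₁ i))

end

/-- the constant of `lo_disj` as a property -/
def PLO (K : ℕ) (φ : ℕ → ℕ) (q : ℕ) : Prop :=
  ∀ (M : Matroid ℕ) (F : Frame) (m : ℕ → Vx), Gam q M → F.Rep M → F.IsPM m →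
    F.Exits m φ → ∀ a₁ a₂ : ℕ, a₁ ≠ a₂ → a₁ ∈ F.E → a₁ ∉ F.base m → a₂ ∈ F.E → a₂ ∉ F.base m →
    ∀ T₁ T₂ : Set Vx, Disjoint T₁ T₂ → ∀ (ι : Type) (J : Finset ι) (w : ι → Vx),
    (∀ i ∈ J, w i ∈ F.inn ∨ w i ∈ F.snk m) → ∀ S : ι → Set Vx,
    (∀ i ∈ J, w i ∈ S i) →
    (∀ i ∈ J, RIn (F.D m) (T₁ ∪ S i) (Sum.inl a₁) (w i)) →
    (∀ i ∈ J, RIn (F.D m) (T₂ ∪ S i) (Sum.inl a₂) (w i)) →
    (∀ i ∈ J, ∀ j ∈ J, i ≠ j → Disjoint (S i) (S j)) → J.card ≤ K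

/-- few of the `R₁ j` meet two disjoint sets reached from `α i₁`, `α i₂` -/
theorem few_meet {q : ℕ} {φ : ℕ → ℕ} {K : ℕ} (hK : PLO K φ q) {M : Matroid ℕ} {F : Frame}
    {m : ℕ → Vx} (hG : Gam q M) (hR : F.Rep M) (hm : F.IsPM m) (hE : F.Exits m φ)
    {T₁ T₂ : Set Vx} {ι : Type} {α : ι → ℕ} {w d₁ d₂ : ι → Vx} {σ R₁ R₂ : ι → Set Vx}
    (h : Bdl F m T₁ T₂ α w d₁ d₂ σ R₁ R₂) (i₁ i₂ : ι) (hi : i₁ ≠ i₂) (U₁ U₂ : Set Vx)
    (hU : Disjoint U₁ U₂) (hU1 : ∀ u ∈ U₁, RIn (F.D m) U₁ (Sum.inl (α i₁)) u)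
    (hU2 : ∀ u ∈ U₂, RIn (F.D m) U₂ (Sum.inl (α i₂)) u) (J : Finset ι)
    (hJ : ∀ j ∈ J, ¬ Disjoint (R₁ j) U₁ ∧ ¬ Disjoint (R₁ j) U₂) : J.card ≤ K := by
  refine hK M F m hG hR hm hE (α i₁) (α i₂) (h.αinj hi) (h.hα i₁).1 (h.hα i₁).2 (h.hα i₂).1
    (h.hα i₂).2 U₁ U₂ hU ι J d₁ (fun j _ => h.end₁ j) R₁ (fun j _ => (h.h₁ j).right_mem)
    ?_ ?_ (fun i _ j _ hij => h.dR₁ i j hij)
  · intro j hj
    obtain ⟨u, hu1, hu2⟩ := Set.not_disjoint_iff.1 (hJ j hj).1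
    exact ((hU1 u hu2).mono_set Set.subset_union_left).trans
      ((h.t₁ j u hu1).2.mono_set Set.subset_union_right)
  · intro j hj
    obtain ⟨u, hu1, hu2⟩ := Set.not_disjoint_iff.1 (hJ j hj).2
    exact ((hU2 u hu2).mono_set Set.subset_union_left).trans
      ((h.t₁ j u hu1).2.mono_set Set.subset_union_right)

/-- cardinality of final and initial parts of `Fin k` -/
theorem card_tail (k : ℕ) (hk : 2 ≤ k) :
    ∃ (i₁ i₂ : Fin k) (J : Finset (Fin k)), i₁ < i₂ ∧ J.card = k - 2 ∧ ∀ j ∈ J, i₂ < j := by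
  refine ⟨⟨0, by omega⟩, ⟨1, by omega⟩, Finset.univ.filter (fun j => 1 < (j : ℕ)), ?_, ?_, ?_⟩
  · exact Fin.mk_lt_mk.2 (by omega)
  · have h1 : Finset.univ.filter (fun j : Fin k => 1 < (j : ℕ)) =
        Finset.univ \ {⟨0, by omega⟩, ⟨1, by omega⟩} := by
      ext j
      simp only [Finset.mem_filter, Finset.mem_univ, true_and, Finset.mem_sdiff,
        Finset.mem_insert, Finset.mem_singleton, Fin.ext_iff]
      omega
    rw [h1, Finset.card_sdiff_of_subset (Finset.subset_univ _), Finset.card_univ, Fintype.card_fin,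
      Finset.card_pair (by simp)]
  · intro j hj
    exact Fin.mk_lt_of_lt_val (Finset.mem_filter.1 hj).2

theorem card_init (k : ℕ) (hk : 2 ≤ k) :
    ∃ (i₁ i₂ : Fin k) (J : Finset (Fin k)), i₁ < i₂ ∧ J.card = k - 2 ∧ ∀ j ∈ J, j < i₁ := by
  refine ⟨⟨k - 2, by omega⟩, ⟨k - 1, by omega⟩,
    Finset.univ.filter (fun j => (j : ℕ) < k - 2), ?_, ?_, ?_⟩
  · exact Fin.mk_lt_mk.2 (by omega)
  · have h1 : Finset.univ.filter (fun j : Fin k => (j : ℕ) < k - 2) =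
        Finset.univ \ {⟨k - 2, by omega⟩, ⟨k - 1, by omega⟩} := by
      ext j
      simp only [Finset.mem_filter, Finset.mem_univ, true_and, Finset.mem_sdiff,
        Finset.mem_insert, Finset.mem_singleton, Fin.ext_iff]
      omega
    rw [h1, Finset.card_sdiff_of_subset (Finset.subset_univ _), Finset.card_univ, Fintype.card_fin,
      Finset.card_pair (by simp [Fin.ext_iff]; omega)]
  · intro j hj
    exact Fin.lt_def.2 (Finset.mem_filter.1 hj).2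

section
variable {q : ℕ} {φ : ℕ → ℕ} {K : ℕ} {M : Matroid ℕ} {F : Frame}
    {m : ℕ → Vx} {T₁ T₂ : Set Vx} {k : ℕ} {α : Fin k → ℕ} {w d₁ d₂ : Fin k → Vx}
    {σ R₁ R₂ : Fin k → Set Vx}

theorem bitA (hK : PLO K φ q) (hG : Gam q M) (hR : F.Rep M) (hm : F.IsPM m) (hE : F.Exits m φ)
    (h : Bdl F m T₁ T₂ α w d₁ d₂ σ R₁ R₂) (hk : K + 2 < k)
    (hb : ∀ i j, i < j → ¬ Disjoint (σ i) (R₁ j)) : False := by
  obtain ⟨i₁, i₂, J, hi, hJc, hJ⟩ := card_tail k (by omega)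
  have := few_meet hK hG hR hm hE h i₁ i₂ hi.ne (σ i₁) (σ i₂) (h.dσ _ _ hi.ne)
    (fun u hu => (h.tσ i₁ u hu).1) (fun u hu => (h.tσ i₂ u hu).1) J
    (fun j hj => ⟨fun hd => hb i₁ j (hi.trans (hJ j hj)) hd.symm,
      fun hd => hb i₂ j (hJ j hj) hd.symm⟩)
  omega

theorem bitB (hK : PLO K φ q) (hG : Gam q M) (hR : F.Rep M) (hm : F.IsPM m) (hE : F.Exits m φ)
    (h : Bdl F m T₁ T₂ α w d₁ d₂ σ R₁ R₂) (hk : K + 2 < k)
    (hb : ∀ i j, i < j → ¬ Disjoint (σ j) (R₁ i)) : False := by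
  obtain ⟨i₁, i₂, J, hi, hJc, hJ⟩ := card_init k (by omega)
  have := few_meet hK hG hR hm hE h i₁ i₂ hi.ne (σ i₁) (σ i₂) (h.dσ _ _ hi.ne)
    (fun u hu => (h.tσ i₁ u hu).1) (fun u hu => (h.tσ i₂ u hu).1) J
    (fun j hj => ⟨fun hd => hb j i₁ (hJ j hj) hd.symm,
      fun hd => hb j i₂ ((hJ j hj).trans hi) hd.symm⟩)
  omega

theorem Bdl.reachU (h : Bdl F m T₁ T₂ α w d₁ d₂ σ R₁ R₂) (i : Fin k) :
    ∀ u ∈ σ i ∪ R₁ i, RIn (F.D m) (σ i ∪ R₁ i) (Sum.inl (α i)) u := by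
  rintro u (hu | hu)
  · exact (h.tσ i u hu).1.mono_set Set.subset_union_left
  · exact ((h.hσ i).mono_set Set.subset_union_left).trans
      ((h.t₁ i u hu).1.mono_set Set.subset_union_right)

theorem Bdl.disjU (h : Bdl F m T₁ T₂ α w d₁ d₂ σ R₁ R₂)
    (h0 : ∀ i j, i < j → Disjoint (σ i) (R₁ j) ∧ Disjoint (σ j) (R₁ i)) {i j : Fin k}
    (hij : i < j) : Disjoint (σ i ∪ R₁ i) (σ j ∪ R₁ j) := by
  rw [Set.disjoint_union_left, Set.disjoint_union_right, Set.disjoint_union_right]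
  exact ⟨⟨h.dσ i j hij.ne, (h0 i j hij).1⟩, (h0 i j hij).2.symm, h.dR₁ i j hij.ne⟩

theorem bitC (hK : PLO K φ q) (hG : Gam q M) (hR : F.Rep M) (hm : F.IsPM m) (hE : F.Exits m φ)
    (h : Bdl F m T₁ T₂ α w d₁ d₂ σ R₁ R₂) (hk : K + 2 < k)
    (h0 : ∀ i j, i < j → Disjoint (σ i) (R₁ j) ∧ Disjoint (σ j) (R₁ i))
    (hb : ∀ i j, i < j → ¬ Disjoint (R₁ i) (R₂ j)) : False := by
  obtain ⟨i₁, i₂, J, hi, hJc, hJ⟩ := card_tail k (by omega)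
  have := few_meet hK hG hR hm hE h.swap i₁ i₂ hi.ne (σ i₁ ∪ R₁ i₁) (σ i₂ ∪ R₁ i₂)
    (h.disjU h0 hi) (h.reachU i₁) (h.reachU i₂) J
    (fun j hj => ⟨fun hd => hb i₁ j (hi.trans (hJ j hj))
        (hd.symm.mono_left Set.subset_union_right),
      fun hd => hb i₂ j (hJ j hj) (hd.symm.mono_left Set.subset_union_right)⟩)
  omega

theorem bitD (hK : PLO K φ q) (hG : Gam q M) (hR : F.Rep M) (hm : F.IsPM m) (hE : F.Exits m φ)
    (h : Bdl F m T₁ T₂ α w d₁ d₂ σ R₁ R₂) (hk : K + 2 < k)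
    (h0 : ∀ i j, i < j → Disjoint (σ i) (R₁ j) ∧ Disjoint (σ j) (R₁ i))
    (hb : ∀ i j, i < j → ¬ Disjoint (R₁ j) (R₂ i)) : False := by
  obtain ⟨i₁, i₂, J, hi, hJc, hJ⟩ := card_init k (by omega)
  have := few_meet hK hG hR hm hE h.swap i₁ i₂ hi.ne (σ i₁ ∪ R₁ i₁) (σ i₂ ∪ R₁ i₂)
    (h.disjU h0 hi) (h.reachU i₁) (h.reachU i₂) J
    (fun j hj => ⟨fun hd => hb j i₁ (hJ j hj) (hd.symm.mono_left Set.subset_union_right),
      fun hd => hb j i₂ ((hJ j hj).trans hi) (hd.symm.mono_left Set.subset_union_right)⟩)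
  omega

end

/-- first true proposition of six -/
noncomputable def col6 (p : Fin 6 → Prop) : Fin 7 := by
  classical
  exact if p 0 then 1 else if p 1 then 2 else if p 2 then 3 else if p 3 then 4 else
    if p 4 then 5 else if p 5 then 6 else 0

theorem col6_spec (p : Fin 6 → Prop) (c : Fin 7) (h : col6 p = c) :
    (c = 1 → p 0) ∧ (c = 2 → p 1) ∧ (c = 3 → p 2) ∧ (c = 4 → p 3) ∧
      (c = 5 → ¬ p 0 ∧ ¬ p 1 ∧ p 4) ∧ (c = 6 → ¬ p 0 ∧ ¬ p 1 ∧ p 5) ∧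
      (c = 0 → ∀ i, ¬ p i) := by
  classical
  subst h
  unfold col6
  by_cases h0 : p 0
  · simp [h0]
  by_cases h1 : p 1
  · simp [h0, h1]
  by_cases h2 : p 2
  · simp [h0, h1, h2]
  by_cases h3 : p 3
  · simp [h0, h1, h2, h3]
  by_cases h4 : p 4
  · simp [h0, h1, h2, h3, h4]
  by_cases h5 : p 5
  · simp [h0, h1, h2, h3, h4, h5]
  simp only [h0, h1, h2, h3, h4, h5, if_false]
  refine ⟨by decide, by decide, by decide, by decide, by decide, by decide, ?_⟩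
  intro _ i
  fin_cases i <;> assumption

/-- the colour of a pair -/
def bits {n : ℕ} (σ R₁ R₂ : Fin n → Set Vx) (i j : Fin n) : Fin 6 → Prop :=
  ![¬ Disjoint (σ i) (R₁ j), ¬ Disjoint (σ j) (R₁ i), ¬ Disjoint (σ i) (R₂ j),
    ¬ Disjoint (σ j) (R₂ i), ¬ Disjoint (R₁ i) (R₂ j), ¬ Disjoint (R₁ j) (R₂ i)]

/-- the Ramsey step -/
theorem ram_step (hRAM : T_RAM) (hLIC : T_LIC) (q : ℕ) (hq : 1 < q) (φ : ℕ → ℕ)
    (hφ : Monotone φ) (K : ℕ) (hK : PLO K φ q) : ∃ N : ℕ,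
    ∀ (M : Matroid ℕ) (F : Frame) (m : ℕ → Vx), Gam q M → F.Rep M → Good F φ → F.IsPM m →
    ∀ (a₁ a₂ : ℕ) (P₁ P₂ : Set ℕ) (N₁ N₂ : Set Vx) (par₁ par₂ : Vx → Vx),
    Two F m a₁ a₂ P₁ P₂ N₁ N₂ par₁ par₂ →
    ∀ (α : Fin N → ℕ) (w d₁ d₂ : Fin N → Vx) (σ R₁ R₂ : Fin N → Set Vx),
    Bdl F m (trS a₁ P₁ N₁) (trS a₂ P₂ N₂) α w d₁ d₂ σ R₁ R₂ →
    (∀ i, Disjoint (σ i) (trS a₁ P₁ N₁ ∪ trS a₂ P₂ N₂)) → False := by
  obtain ⟨KL, hKL⟩ := hLIC q hq φ hφ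
  obtain ⟨N, hN⟩ := hRAM 7 (K + KL + 3)
  refine ⟨N, ?_⟩
  intro M F m hG hR hGo hm a₁ a₂ P₁ P₂ N₁ N₂ par₁ par₂ hT α w d₁ d₂ σ R₁ R₂ hB hσT
  have hE := (hGo m hm).1
  obtain ⟨g, hg, c, hc⟩ := hN (fun i j => col6 (bits σ R₁ R₂ i j))
  have hB' := hB.comp g hg.injective
  have hk : K + 2 < K + KL + 3 := by omega
  have b1 : ¬ ∀ i j, i < j → ¬ Disjoint (σ (g i)) (R₁ (g j)) :=
    bitA hK hG hR hm hE hB' hk
  have b2 : ¬ ∀ i j, i < j → ¬ Disjoint (σ (g j)) (R₁ (g i)) :=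
    bitB hK hG hR hm hE hB' hk
  have b3 : ¬ ∀ i j, i < j → ¬ Disjoint (σ (g i)) (R₂ (g j)) :=
    bitA hK hG hR hm hE hB'.swap hk
  have b4 : ¬ ∀ i j, i < j → ¬ Disjoint (σ (g j)) (R₂ (g i)) :=
    bitB hK hG hR hm hE hB'.swap hk
  have b5 := bitC hK hG hR hm hE hB' hk
  have b6 := bitD hK hG hR hm hE hB' hk
  -- all pairs have colour 0
  have hall : ∀ i j, i < j → Disjoint (σ (g i)) (R₁ (g j)) ∧ Disjoint (σ (g j)) (R₁ (g i)) ∧
      Disjoint (σ (g i)) (R₂ (g j)) ∧ Disjoint (σ (g j)) (R₂ (g i)) ∧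
      Disjoint (R₁ (g i)) (R₂ (g j)) ∧ Disjoint (R₁ (g j)) (R₂ (g i)) := by
    have hcc := fun i j hij => col6_spec _ _ (hc i j hij)
    have hc1 : c ≠ 1 := fun h => b1 fun i j hij => (hcc i j hij).1 h
    have hc2 : c ≠ 2 := fun h => b2 fun i j hij => (hcc i j hij).2.1 h
    have hc3 : c ≠ 3 := fun h => b3 fun i j hij => (hcc i j hij).2.2.1 h
    have hc4 : c ≠ 4 := fun h => b4 fun i j hij => (hcc i j hij).2.2.2.1 h
    have hc5 : c ≠ 5 := fun h => b5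
      (fun i j hij => ⟨not_not.1 ((hcc i j hij).2.2.2.2.1 h).1,
        not_not.1 ((hcc i j hij).2.2.2.2.1 h).2.1⟩)
      (fun i j hij => ((hcc i j hij).2.2.2.2.1 h).2.2)
    have hc6 : c ≠ 6 := fun h => b6
      (fun i j hij => ⟨not_not.1 ((hcc i j hij).2.2.2.2.2.1 h).1,
        not_not.1 ((hcc i j hij).2.2.2.2.2.1 h).2.1⟩)
      (fun i j hij => ((hcc i j hij).2.2.2.2.2.1 h).2.2)
    have hc0 : c = 0 := by omega
    intro i j hij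
    have hz := (hcc i j hij).2.2.2.2.2.2 hc0
    exact ⟨not_not.1 (hz 0), not_not.1 (hz 1), not_not.1 (hz 2), not_not.1 (hz 3),
      not_not.1 (hz 4), not_not.1 (hz 5)⟩
  -- bundles are disjoint
  have hdis : ∀ i j, i < j → Disjoint (σ (g i) ∪ R₁ (g i) ∪ R₂ (g i))
      (σ (g j) ∪ R₁ (g j) ∪ R₂ (g j)) := by
    intro i j hij
    obtain ⟨e1, e2, e3, e4, e5, e6⟩ := hall i j hij
    have f1 := hB'.dσ i j hij.ne
    have f2 := hB'.dR₁ i j hij.ne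
    have f3 := hB'.dR₂ i j hij.ne
    simp only [Set.disjoint_union_left, Set.disjoint_union_right]
    exact ⟨⟨⟨⟨f1, e2.symm⟩, e4.symm⟩, ⟨e1, f2⟩, e6.symm⟩, ⟨e3, e5⟩, f3⟩
  have hfin := hKL M F m hG hR hGo hm a₁ a₂ P₁ P₂ N₁ N₂ par₁ par₂ hT (K + KL + 3)
    (fun i => α (g i)) (fun i => w (g i)) (fun i => d₁ (g i)) (fun i => d₂ (g i))
    (fun i => σ (g i)) (fun i => R₁ (g i)) (fun i => R₂ (g i))
    (fun i => ⟨(hB'.hα i).1, (hB'.hα i).2, hB'.hσ i, hB'.h₁ i, hB'.h₂ i, hB'.m₁ i, hB'.m₂ i⟩)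
    (fun i x hx => ⟨fun h => Set.disjoint_left.1 (hσT (g i)) h hx, hB'.c₁ i x hx, hB'.c₂ i x hx⟩)
    (by
      intro i j hij
      rcases lt_or_gt_of_ne hij with h | h
      · exact hdis i j h
      · exact (hdis j i h).symm)
  omega

/-- the constant of `lo_fin` with `c = 2` as a property -/
def PLO2 (K : ℕ) (φ : ℕ → ℕ) (q : ℕ) : Prop :=
  ∀ (M : Matroid ℕ) (F : Frame) (m : ℕ → Vx), Gam q M → F.Rep M → F.IsPM m →
    F.Exits m φ → ∀ a₁ a₂ : ℕ, a₁ ≠ a₂ → a₁ ∈ F.E → a₁ ∉ F.base m → a₂ ∈ F.E → a₂ ∉ F.base m →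
    ∀ T₁ T₂ : Set Vx, Disjoint T₁ T₂ → ∀ (ι : Type) (J : Finset ι) (w : ι → Vx),
    (∀ i ∈ J, ∀ j ∈ J, w i = w j → i = j) →
    (∀ i ∈ J, w i ∈ F.inn ∨ w i ∈ F.snk m) → ∀ S₁ S₂ : ι → Set Vx,
    (∀ i ∈ J, RIn (F.D m) (T₁ ∪ S₁ i) (Sum.inl a₁) (w i)) →
    (∀ i ∈ J, RIn (F.D m) (T₂ ∪ S₂ i) (Sum.inl a₂) (w i)) →
    (∀ x, {i | i ∈ J ∧ x ∈ S₁ i}.ncard ≤ 2) → (∀ x, {i | i ∈ J ∧ x ∈ S₂ i}.ncard ≤ 2) →
    J.card ≤ K

/-- few of the walks from the sources meet a tree -/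
theorem few_bad {q : ℕ} {φ : ℕ → ℕ} {K : ℕ} (hK : PLO2 K φ q) {M : Matroid ℕ} {F : Frame}
    {m : ℕ → Vx} (hG : Gam q M) (hR : F.Rep M) (hm : F.IsPM m) (hE : F.Exits m φ)
    {T₁ T₂ : Set Vx} {ι : Type} {α : ι → ℕ} {w d₁ d₂ : ι → Vx} {σ R₁ R₂ : ι → Set Vx}
    (h : Bdl F m T₁ T₂ α w d₁ d₂ σ R₁ R₂) (a₁ a₂ : ℕ) (hne : a₁ ≠ a₂) (ha₁ : a₁ ∈ F.E)
    (ha₁' : a₁ ∉ F.base m) (ha₂ : a₂ ∈ F.E) (ha₂' : a₂ ∉ F.base m) (hT : Disjoint T₁ T₂)
    (hr1 : ∀ u ∈ T₁, RIn (F.D m) T₁ (Sum.inl a₁) u) (hr2 : ∀ u ∈ T₂, RIn (F.D m) T₂ (Sum.inl a₂) u)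
    (J : Finset ι) (hJ : ∀ j ∈ J, ¬ Disjoint (σ j) T₁) : J.card ≤ K := by
  refine hK M F m hG hR hm hE a₁ a₂ hne ha₁ ha₁' ha₂ ha₂' T₁ T₂ hT ι J d₂ ?_
    (fun j _ => h.swap.end₁ j) (fun j => σ j ∪ R₂ j) (fun _ => ∅) ?_ ?_ ?_ ?_
  · intro i _ j _ hij
    by_contra hne'
    exact Set.disjoint_left.1 (h.dR₂ i j hne') (h.h₂ i).right_mem (hij ▸ (h.h₂ j).right_mem)
  · intro j hj
    obtain ⟨u, hu1, hu2⟩ := Set.not_disjoint_iff.1 (hJ j hj)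
    exact (((hr1 u hu2).mono_set Set.subset_union_left).trans
      ((h.tσ j u hu1).2.mono_set fun z hz => Or.inr (Or.inl hz))).trans
      ((h.h₂ j).mono_set fun z hz => Or.inr (Or.inr hz))
  · intro j _
    exact (hr2 _ (h.m₂ j)).mono_set Set.subset_union_left
  · intro x
    have e : {i | i ∈ J ∧ x ∈ σ i ∪ R₂ i} = {i | i ∈ J ∧ x ∈ σ i} ∪ {i | i ∈ J ∧ x ∈ R₂ i} := by
      ext i
      constructor
      · rintro ⟨h1, h2 | h2⟩
        · exact Or.inl ⟨h1, h2⟩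
        · exact Or.inr ⟨h1, h2⟩
      · rintro (⟨h1, h2⟩ | ⟨h1, h2⟩)
        · exact ⟨h1, Or.inl h2⟩
        · exact ⟨h1, Or.inr h2⟩
    rw [e]
    refine (Set.ncard_union_le _ _).trans ?_
    have h1 := ncard_le_one_of_disj J σ (fun i _ j _ hij => h.dσ i j hij) x
    have h2 := ncard_le_one_of_disj J R₂ (fun i _ j _ hij => h.dR₂ i j hij) x
    omega
  · intro x
    simp

theorem li (hM : T_MEN) (hRAM : T_RAM) (hLO : T_LO) (hLIC : T_LIC) : T_LI := by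
  classical
  intro q hq φ hφ
  obtain ⟨K1, hK1⟩ := lo_disj hLO q hq φ hφ
  obtain ⟨K2, hK2⟩ := lo_fin hLO q hq φ hφ 2
  obtain ⟨N, hN⟩ := ram_step hRAM hLIC q hq φ hφ K1 hK1
  set N2 := N + 2 * K2 with hN2
  refine ⟨2 * K1 + φ N2, ?_⟩
  intro M F m hG hR hGo hm a₁ a₂ P₁ P₂ N₁ N₂ par₁ par₂ hT n w d₁ d₂ R₁ R₂ hw dR1 dR2
  by_contra hlt
  have hE := (hGo m hm).1
  have hFe := (hGo m hm).2
  set TR1 := trS a₁ P₁ N₁ with hTR1
  set TR2 := trS a₂ P₂ N₂ with hTR2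
  have hTd : Disjoint TR1 TR2 := two_disj hT
  have r1 : ∀ u ∈ TR1, RIn (F.D m) TR1 (Sum.inl a₁) u := tree_reach hT.tr₁
  have r2 : ∀ u ∈ TR2, RIn (F.D m) TR2 (Sum.inl a₂) u := tree_reach hT.tr₂
  set T : Set Vx := TR1 ∪ TR2 with hTT
  have hz1 : ∀ i, ∃ z ∈ T, RIn (F.D m) ((R₁ i \ T) ∪ {z}) (w i) z ∧
      RIn (F.D m) (R₁ i) z (d₁ i) := fun i => (hw i).2.1.first (Or.inl (hw i).2.2.2.1)
  have hz2 : ∀ i, ∃ z ∈ T, RIn (F.D m) ((R₂ i \ T) ∪ {z}) (w i) z ∧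
      RIn (F.D m) (R₂ i) z (d₂ i) := fun i => (hw i).2.2.1.first (Or.inr (hw i).2.2.2.2)
  choose z₁ hz1T hz1a hz1b using hz1
  choose z₂ hz2T hz2a hz2b using hz2
  -- step 1
  set Bad1 : Finset (Fin n) := Finset.univ.filter (fun i => z₁ i ∈ TR2) with hBad1
  set Bad2 : Finset (Fin n) := Finset.univ.filter (fun i => z₂ i ∈ TR1) with hBad2
  have cBad1 : Bad1.card ≤ K1 := by
    have hmem : ∀ i ∈ Bad1, z₁ i ∈ TR2 := fun i hi => (Finset.mem_filter.1 hi).2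
    refine hK1 M F m hG hR hm hE a₁ a₂ hT.ne hT.src₁.1 hT.src₁.2 hT.src₂.1 hT.src₂.2 TR1 TR2
      hTd (Fin n) Bad1 d₁ ?_ R₁ (fun i _ => (hw i).2.1.right_mem) ?_ ?_
      (fun i _ j _ hij => dR1 i j hij)
    · intro i hi
      refine end_inn (hz1b i) fun he => ?_
      have h1 := hmem i hi
      rw [he] at h1
      exact Set.disjoint_left.1 hTd (hw i).2.2.2.1 h1
    · intro i _
      exact (r1 _ (hw i).2.2.2.1).mono_set Set.subset_union_left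
    · intro i hi
      exact ((r2 _ (hmem i hi)).mono_set Set.subset_union_left).trans
        ((hz1b i).mono_set Set.subset_union_right)
  have cBad2 : Bad2.card ≤ K1 := by
    have hmem : ∀ i ∈ Bad2, z₂ i ∈ TR1 := fun i hi => (Finset.mem_filter.1 hi).2
    refine hK1 M F m hG hR hm hE a₁ a₂ hT.ne hT.src₁.1 hT.src₁.2 hT.src₂.1 hT.src₂.2 TR1 TR2
      hTd (Fin n) Bad2 d₂ ?_ R₂ (fun i _ => (hw i).2.2.1.right_mem) ?_ ?_
      (fun i _ j _ hij => dR2 i j hij)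
    · intro i hi
      refine end_inn (hz2b i) fun he => ?_
      have h1 := hmem i hi
      rw [he] at h1
      exact Set.disjoint_left.1 hTd h1 (hw i).2.2.2.2
    · intro i hi
      exact ((r1 _ (hmem i hi)).mono_set Set.subset_union_left).trans
        ((hz2b i).mono_set Set.subset_union_right)
    · intro i _
      exact (r2 _ (hw i).2.2.2.2).mono_set Set.subset_union_left
  set G0 : Finset (Fin n) := Finset.univ \ (Bad1 ∪ Bad2) with hG0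
  have cG0 : φ N2 < G0.card := by
    have h3 : Fintype.card (Fin n) - (Bad1 ∪ Bad2).card ≤ G0.card :=
      Finset.le_card_sdiff (Bad1 ∪ Bad2) (Finset.univ : Finset (Fin n))
    rw [Fintype.card_fin] at h3
    have h4 := Finset.card_union_le Bad1 Bad2
    omega
  have g1 : ∀ i ∈ G0, z₁ i ∈ TR1 := by
    intro i hi
    rcases hz1T i with h | h
    · exact h
    · have h5 : i ∈ Bad1 := Finset.mem_filter.2 ⟨Finset.mem_univ _, h⟩
      exact absurd (Finset.mem_union_left _ h5) (Finset.mem_sdiff.1 hi).2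
  have g2 : ∀ i ∈ G0, z₂ i ∈ TR2 := by
    intro i hi
    rcases hz2T i with h | h
    · have h5 : i ∈ Bad2 := Finset.mem_filter.2 ⟨Finset.mem_univ _, h⟩
      exact absurd (Finset.mem_union_right _ h5) (Finset.mem_sdiff.1 hi).2
    · exact h
  have gw : ∀ i ∈ G0, w i ∉ T := by
    intro i hi hwT
    have e1 : w i = z₁ i := by
      rcases (hz1a i).left_mem with h | h
      · exact absurd hwT h.2
      · exact h
    have e2 : w i = z₂ i := by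
      rcases (hz2a i).left_mem with h | h
      · exact absurd hwT h.2
      · exact h
    exact Set.disjoint_left.1 hTd (g1 i hi) (by rw [← e1, e2]; exact g2 i hi)
  have winj : Function.Injective w := by
    intro i j hij
    by_contra hne
    exact Set.disjoint_left.1 (dR1 i j hne) (hw i).2.1.left_mem (hij ▸ (hw j).2.1.left_mem)
  -- step 2
  have hL : Lnk (F.D m) N2 (F.src m) ((G0.image w : Finset Vx) : Set Vx) := by
    have hin : ∀ x ∈ G0.image w, x ∈ F.inn := by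
      intro x hx
      obtain ⟨i, -, rfl⟩ := Finset.mem_image.1 hx
      exact (hw i).1
    apply menF hM src_uni (fun x hx => inn_uni (hin x hx))
    intro S hS
    by_contra hlt'
    have h1 := hFe (G0.image w) (fun x hx => Or.inl (hin x hx)) S hS
    have h2 : φ S.card ≤ φ N2 := hφ (by omega)
    rw [Finset.card_image_of_injective _ winj] at h1
    omega
  obtain ⟨x, y, σ, hσ1, hσ2, hσ3⟩ := lnk_trim hL
  have hidx : ∀ k, ∃ i ∈ G0, y k = w i := by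
    intro k
    obtain ⟨i, hi, he⟩ := Finset.mem_image.1 (Finset.mem_coe.1 (hσ1 k).2.1)
    exact ⟨i, hi, he.symm⟩
  choose ix hix1 hix2 using hidx
  have hα : ∀ k, ∃ e, (e ∈ F.E ∧ e ∉ F.base m) ∧ x k = Sum.inl e := by
    intro k
    obtain ⟨e, h1, h2, h3⟩ := (hσ1 k).1
    exact ⟨e, ⟨h1, h2⟩, h3⟩
  choose α hα1 hα2 using hα
  have ixinj : ∀ i j, i ≠ j → ix i ≠ ix j := by
    intro i j hne he
    have h1 := (hσ1 i).2.2.right_mem
    have h2 := (hσ1 j).2.2.right_mem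
    rw [hix2] at h1 h2
    rw [← he] at h2
    exact Set.disjoint_left.1 (hσ3 i j hne) h1 h2
  set R₁' : Fin N2 → Set Vx := fun k =>
    trim (F.D m) ((R₁ (ix k) \ T) ∪ {z₁ (ix k)}) (w (ix k)) (z₁ (ix k)) with hR1'
  set R₂' : Fin N2 → Set Vx := fun k =>
    trim (F.D m) ((R₂ (ix k) \ T) ∪ {z₂ (ix k)}) (w (ix k)) (z₂ (ix k)) with hR2'
  have sub1 : ∀ k, R₁' k ⊆ R₁ (ix k) := by
    intro k u hu
    rcases trim_sub hu with h | h
    · exact h.1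
    · rw [Set.mem_singleton_iff.1 h]; exact (hz1b (ix k)).left_mem
  have sub2 : ∀ k, R₂' k ⊆ R₂ (ix k) := by
    intro k u hu
    rcases trim_sub hu with h | h
    · exact h.1
    · rw [Set.mem_singleton_iff.1 h]; exact (hz2b (ix k)).left_mem
  have hB : Bdl F m TR1 TR2 α (fun k => w (ix k)) (fun k => z₁ (ix k)) (fun k => z₂ (ix k))
      σ R₁' R₂' := by
    refine ⟨hα1, ?_, ?_, ?_, ?_, ?_, ?_, ?_, ?_, ?_, ?_, ?_, hσ3, ?_, ?_⟩
    · intro k; rw [← hα2, ← hix2]; exact (hσ1 k).2.2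
    · intro k u hu; rw [← hα2, ← hix2]; exact hσ2 k u hu
    · intro k; exact trim_rIn (hz1a (ix k))
    · intro k u hu; exact ⟨trim_mem_left hu, trim_mem_right hu⟩
    · intro k; exact trim_rIn (hz2a (ix k))
    · intro k u hu; exact ⟨trim_mem_left hu, trim_mem_right hu⟩
    · intro k; exact g1 _ (hix1 k)
    · intro k; exact g2 _ (hix1 k)
    · intro k; exact gw _ (hix1 k)
    · intro k u hu1 hu2
      rcases trim_sub hu2 with h | h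
      · exact absurd hu1 h.2
      · exact h
    · intro k u hu1 hu2
      rcases trim_sub hu2 with h | h
      · exact absurd hu1 h.2
      · exact h
    · intro i j hij
      exact (dR1 _ _ (ixinj i j hij)).mono (sub1 i) (sub1 j)
    · intro i j hij
      exact (dR2 _ _ (ixinj i j hij)).mono (sub2 i) (sub2 j)
  -- step 3
  set BadA : Finset (Fin N2) := Finset.univ.filter (fun k => ¬ Disjoint (σ k) TR1) with hBadA
  set BadB : Finset (Fin N2) := Finset.univ.filter (fun k => ¬ Disjoint (σ k) TR2) with hBadB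
  have cA : BadA.card ≤ K2 := few_bad hK2 hG hR hm hE hB a₁ a₂ hT.ne hT.src₁.1 hT.src₁.2
    hT.src₂.1 hT.src₂.2 hTd r1 r2 BadA (fun j hj => (Finset.mem_filter.1 hj).2)
  have cB : BadB.card ≤ K2 := few_bad hK2 hG hR hm hE hB.swap a₂ a₁ hT.ne.symm hT.src₂.1
    hT.src₂.2 hT.src₁.1 hT.src₁.2 hTd.symm r2 r1 BadB (fun j hj => (Finset.mem_filter.1 hj).2)
  have cG1 : N ≤ (Finset.univ \ (BadA ∪ BadB)).card := by
    have h3 := Finset.le_card_sdiff (BadA ∪ BadB) (Finset.univ : Finset (Fin N2))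
    rw [Finset.card_univ, Fintype.card_fin] at h3
    have h4 := Finset.card_union_le BadA BadB
    omega
  have hg := Finset.orderEmbOfCardLe_mem (Finset.univ \ (BadA ∪ BadB)) cG1
  set g := Finset.orderEmbOfCardLe (Finset.univ \ (BadA ∪ BadB)) cG1 with hgdef
  refine hN M F m hG hR hGo hm a₁ a₂ P₁ P₂ N₁ N₂ par₁ par₂ hT _ _ _ _ _ _ _
    (hB.comp g g.injective) ?_
  intro i
  have h1 := (Finset.mem_sdiff.1 (hg i)).2
  rw [Set.disjoint_union_right]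
  constructor
  · by_contra hc
    exact h1 (Finset.mem_union_left _ (Finset.mem_filter.2 ⟨Finset.mem_univ _, hc⟩))
  · by_contra hc
    exact h1 (Finset.mem_union_right _ (Finset.mem_filter.2 ⟨Finset.mem_univ _, hc⟩))

end Pool.Agent.H67.GW
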