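import Pool.Agent.H67.GW.Common

/-!
# BIG: at most one vertex of class `P` of large out-degree
-/

set_option autoImplicit false

namespace Pool.Agent.H67.GW

open Pool.Agent.H55.GW

variable {F : Frame} {m : ℕ → Vx}

theorem mate_ne (hm : F.IsPM m) {p₁ p₂ : ℕ} (h1 : p₁ ∈ F.V) (h2 : p₂ ∈ F.V) (hP1 : F.isP p₁)
    (hP2 : F.isP p₂) (hne : p₁ ≠ p₂) : m p₁ ≠ m p₂ ∧ m p₁ ≠ Sum.inr p₂ := by
  constructor
  · intro he
    rcases hm.cases h1 with ⟨e, he1, h3⟩ | ⟨u, hu, -, h3, -, -⟩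
    · have h4 := (hm p₂ h2).1 e (he ▸ he1)
      exact hne (F.att_uniq e p₁ p₂ h3 h4)
    · have h4 := ((hm p₂ h2).2 u (he ▸ hu)).2
      rw [h3] at h4
      exact hne (by simpa using h4)
  · intro he
    rcases hm.cases h1 with ⟨e, he1, h3⟩ | ⟨u, hu, -, h3, h4, -⟩
    · rw [he1] at he
      exact absurd he (by simp)
    · rw [hu] at he
      have : u = p₂ := by simpa using he
      subst this
      exact h4.1 hP1 hP2

/-- one vertex of class `P` is reached from the sources if the small set avoids it and its mate -/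
theorem reach_P (hm : F.IsPM m) (hCo : F.CoFan m) {p : ℕ} (hp : p ∈ F.V) (hP : F.isP p)
    (S : Finset Vx) (hS : S.card ≤ 1) (h1 : Sum.inr p ∉ S) (h2 : m p ∉ S) :
    ∃ s ∈ F.src m, RIn (F.D m) (S : Set Vx)ᶜ s (Sum.inr p) := by
  have harc := Frame.D_mate_P hm hp hP
  rcases hm.cases hp with ⟨e, he, h3⟩ | ⟨u, hu, hV, h4, h5, h6⟩
  · refine ⟨Sum.inl e, ⟨e, Frame.att_E h3, ?_, rfl⟩, ?_⟩
    · intro hb
      exact ((Frame.mem_base_iff h3).1 hb).1 hP he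
    · rw [he] at harc h2
      exact RIn.single harc (by simpa using h2) (by simpa using h1)
  · have hQ : ¬ F.isP u := h5.1 hP
    have hexc : ¬ F.Exc u := by
      rintro ⟨h7, -⟩
      rcases h6 with h6 | h6
      · exact (h7 p).2 h6
      · exact (h7 p).1 h6
    rw [hu] at harc h2
    rcases hCo u hV hQ with h7 | h7
    · exact absurd h7 hexc
    · -- choose `z`
      have hz : ∃ z : Vx, z ≠ Sum.inr u ∧ (S : Set Vx) ⊆ {z} := by
        rcases Nat.lt_or_ge 0 S.card with hc | hc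
        · have hc1 : S.card = 1 := by omega
          obtain ⟨z, hz⟩ := Finset.card_eq_one.1 hc1
          refine ⟨z, ?_, by rw [hz]; simp⟩
          rintro rfl
          exact h2 (by rw [hz]; simp)
        · have hc1 : S = ∅ := Finset.card_eq_zero.1 (by omega)
          refine ⟨Sum.inr p, ?_, by rw [hc1]; simp⟩
          intro he
          have : p = u := by simpa using he
          subst this
          exact hQ hP
      obtain ⟨z, hz1, hz2⟩ := hz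
      obtain ⟨s, hs, hr⟩ := h7 z hz1
      exact ⟨s, hs, (hr.mono_set (Set.compl_subset_compl.2 hz2)).tail harc (by simpa using h1)⟩

theorem two_feeds (hM : T_MEN) (hm : F.IsPM m) (hCo : F.CoFan m) {p₁ p₂ : ℕ} (h1 : p₁ ∈ F.V)
    (h2 : p₂ ∈ F.V) (hP1 : F.isP p₁) (hP2 : F.isP p₂) (hne : p₁ ≠ p₂) :
    Lnk (F.D m) 2 (F.src m) {Sum.inr p₁, Sum.inr p₂} := by
  apply menF hM src_uni
  · rintro x (rfl | hx)
    · exact Or.inl ⟨p₁, h1, rfl⟩
    · rw [Set.mem_singleton_iff.1 hx]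
      exact Or.inl ⟨p₂, h2, rfl⟩
  · intro S hS
    by_contra hlt
    have hS1 : S.card ≤ 1 := by omega
    obtain ⟨hm1, hm2⟩ := mate_ne hm h1 h2 hP1 hP2 hne
    obtain ⟨-, hm3⟩ := mate_ne hm h2 h1 hP2 hP1 hne.symm
    have hone : ∀ a b : Vx, a ∈ S → b ∈ S → a = b := by
      intro a b ha hb
      exact Finset.card_le_one.1 hS1 a ha b hb
    have key : (Sum.inr p₁ ∉ S ∧ m p₁ ∉ S) ∨ (Sum.inr p₂ ∉ S ∧ m p₂ ∉ S) := by
      by_cases c1 : Sum.inr p₁ ∈ S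
      · right
        refine ⟨fun h => ?_, fun h => hm3 (hone _ _ h c1)⟩
        have := hone _ _ c1 h
        exact hne (by simpa using this)
      · by_cases c2 : m p₁ ∈ S
        · right
          exact ⟨fun h => hm2 (hone _ _ c2 h), fun h => hm1 (hone _ _ c2 h)⟩
        · exact Or.inl ⟨c1, c2⟩
    rcases key with ⟨k1, k2⟩ | ⟨k1, k2⟩
    · obtain ⟨s, hs, hr⟩ := reach_P hm hCo h1 hP1 S hS1 k1 k2
      exact hS s hs _ (Or.inl rfl) hr
    · obtain ⟨s, hs, hr⟩ := reach_P hm hCo h2 hP2 S hS1 k1 k2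
      exact hS s hs _ (Or.inr rfl) hr

/-- two disjoint rooted walks -/
theorem two_walks (hM : T_MEN) (hm : F.IsPM m) (hCo : F.CoFan m) {p₁ p₂ : ℕ} (h1 : p₁ ∈ F.V)
    (h2 : p₂ ∈ F.V) (hP1 : F.isP p₁) (hP2 : F.isP p₂) (hne : p₁ ≠ p₂) :
    ∃ (a₁ a₂ : ℕ) (τ₁ τ₂ : Set Vx), a₁ ≠ a₂ ∧ (a₁ ∈ F.E ∧ a₁ ∉ F.base m) ∧
      (a₂ ∈ F.E ∧ a₂ ∉ F.base m) ∧ Disjoint τ₁ τ₂ ∧
      RIn (F.D m) τ₁ (Sum.inl a₁) (Sum.inr p₁) ∧ RIn (F.D m) τ₂ (Sum.inl a₂) (Sum.inr p₂) ∧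
      (∀ u ∈ τ₁, RIn (F.D m) τ₁ (Sum.inl a₁) u) ∧ (∀ u ∈ τ₂, RIn (F.D m) τ₂ (Sum.inl a₂) u) := by
  obtain ⟨x, y, S, hS1, hS2, hS3⟩ := lnk_trim (two_feeds hM hm hCo h1 h2 hP1 hP2 hne)
  have hd := hS3 0 1 (by decide)
  obtain ⟨⟨e0, he0, he0', hx0⟩, hy0, hr0⟩ := hS1 0
  obtain ⟨⟨e1, he1, he1', hx1⟩, hy1, hr1⟩ := hS1 1
  have hne01 : e0 ≠ e1 := by
    intro he
    have : x 0 = x 1 := by rw [hx0, hx1, he]
    exact Set.disjoint_left.1 hd hr0.left_mem (this ▸ hr1.left_mem)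
  have hyne : y 0 ≠ y 1 := by
    intro he
    exact Set.disjoint_left.1 hd hr0.right_mem (he ▸ hr1.right_mem)
  rw [hx0] at hr0
  rw [hx1] at hr1
  have hl0 : ∀ u ∈ S 0, RIn (F.D m) (S 0) (Sum.inl e0) u := fun u hu => by
    rw [← hx0]; exact (hS2 0 u hu).1
  have hl1 : ∀ u ∈ S 1, RIn (F.D m) (S 1) (Sum.inl e1) u := fun u hu => by
    rw [← hx1]; exact (hS2 1 u hu).1
  rcases hy0 with hy0 | hy0
  · rcases hy1 with hy1 | hy1
    · exact absurd (hy0.trans hy1.symm) hyne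
    · rw [hy0] at hr0
      rw [Set.mem_singleton_iff.1 hy1] at hr1
      exact ⟨e0, e1, S 0, S 1, hne01, ⟨he0, he0'⟩, ⟨he1, he1'⟩, hd, hr0, hr1, hl0, hl1⟩
  · have hy0 := Set.mem_singleton_iff.1 hy0
    rcases hy1 with hy1 | hy1
    · rw [hy0] at hr0
      rw [hy1] at hr1
      exact ⟨e1, e0, S 1, S 0, hne01.symm, ⟨he1, he1'⟩, ⟨he0, he0'⟩, hd.symm, hr1, hr0, hl1, hl0⟩
    · exact absurd (hy0.trans (Set.mem_singleton_iff.1 hy1).symm) hyne

/-- a fan of disjoint walks from the out-neighbours of `p` to the sinks -/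
theorem fan_walks (hM : T_MEN) {φ : ℕ → ℕ} (hφ : Monotone φ) (hE : F.Exits m φ) (p : ℕ) (n : ℕ)
    (hn : φ n < {x | F.D m (Sum.inr p) x}.ncard) :
    ∃ (x : Fin n → Vx) (t : Fin n → ℕ) (Φ : Fin n → Set Vx),
      (∀ k, F.D m (Sum.inr p) (x k) ∧ t k ∈ F.base m ∧ RIn (F.D m) (Φ k) (x k) (Sum.inl (t k))) ∧
      (∀ k, ∀ u ∈ Φ k, RIn (F.D m) (Φ k) (x k) u ∧ RIn (F.D m) (Φ k) u (Sum.inl (t k))) ∧
      ∀ i j, i ≠ j → Disjoint (Φ i) (Φ j) := by
  classical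
  set X : Set Vx := {x | F.D m (Sum.inr p) x} with hX
  have hfin : X.Finite := F.uni_finite.subset fun x hx => (Frame.D_uni hx).2
  have hL : Lnk (F.D m) n X (F.snk m) := by
    apply menF hM (fun x hx => (Frame.D_uni hx).2) snk_uni
    intro S hS
    by_contra hlt
    have h1 := hE hfin.toFinset (fun x hx => inn_or_snk (hfin.mem_toFinset.1 hx)) S
      (by rw [hfin.coe_toFinset]; exact hS)
    rw [← Set.ncard_eq_toFinset_card X hfin] at h1
    have h2 : φ S.card ≤ φ n := hφ (by omega)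
    omega
  obtain ⟨x, y, S, hS1, hS2, hS3⟩ := lnk_trim hL
  have hy : ∀ k, ∃ e ∈ F.base m, y k = Sum.inl e := fun k => (hS1 k).2.1
  choose t ht1 ht2 using hy
  refine ⟨x, t, S, fun k => ⟨(hS1 k).1, ht1 k, ?_⟩, fun k u hu => ?_, hS3⟩
  · rw [← ht2 k]; exact (hS1 k).2.2
  · rw [← ht2 k]; exact hS2 k u hu

theorem big (hM : T_MEN) (hLO : T_LO) : T_BIG := by
  classical
  intro q hq φ hφ N
  obtain ⟨K, hK⟩ := lo_disj hLO q hq φ hφ
  refine ⟨φ (N + K + K * N), ?_⟩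
  intro M F m hG hR hm hE hCo hN p₁ h1 p₂ h2 hP1 hP2 hne
  by_contra hcon
  push Not at hcon
  obtain ⟨hd1, hd2⟩ := hcon
  obtain ⟨a₁, a₂, τ₁, τ₂, hane, ha1, ha2, hτ, hr1, hr2, hl1, hl2⟩ :=
    two_walks hM hm hCo h1 h2 hP1 hP2 hne
  set n := N + K + K * N with hn
  obtain ⟨x₁, t₁, Φ₁, f1, g1, d1⟩ := fan_walks hM hφ hE p₁ n hd1
  obtain ⟨x₂, t₂, Φ₂, f2, g2, d2⟩ := fan_walks hM hφ hE p₂ n hd2
  -- basic walks
  have w1 : ∀ k, RIn (F.D m) (τ₁ ∪ Φ₁ k) (Sum.inl a₁) (Sum.inl (t₁ k)) := fun k =>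
    ((hr1.mono_set Set.subset_union_left).tail (f1 k).1 (Or.inr (f1 k).2.2.left_mem)).trans
      ((f1 k).2.2.mono_set Set.subset_union_right)
  have w2 : ∀ k, RIn (F.D m) (τ₂ ∪ Φ₂ k) (Sum.inl a₂) (Sum.inl (t₂ k)) := fun k =>
    ((hr2.mono_set Set.subset_union_left).tail (f2 k).1 (Or.inr (f2 k).2.2.left_mem)).trans
      ((f2 k).2.2.mono_set Set.subset_union_right)
  have snk1 : ∀ k, (Sum.inl (t₁ k) : Vx) ∈ F.inn ∨ (Sum.inl (t₁ k) : Vx) ∈ F.snk m := fun k =>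
    Or.inr ⟨t₁ k, (f1 k).2.1, rfl⟩
  have snk2 : ∀ k, (Sum.inl (t₂ k) : Vx) ∈ F.inn ∨ (Sum.inl (t₂ k) : Vx) ∈ F.snk m := fun k =>
    Or.inr ⟨t₂ k, (f2 k).2.1, rfl⟩
  -- bad indices
  set B1 : Finset (Fin n) := Finset.univ.filter (fun k => ¬ Disjoint (Φ₁ k) τ₂) with hB1
  set B2 : Finset (Fin n) := Finset.univ.filter (fun k => ¬ Disjoint (Φ₂ k) τ₁) with hB2
  have cB1 : B1.card ≤ K := by
    refine hK M F m hG hR hm hE a₁ a₂ hane ha1.1 ha1.2 ha2.1 ha2.2 τ₁ τ₂ hτ (Fin n) B1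
      (fun k => Sum.inl (t₁ k)) (fun k _ => snk1 k) Φ₁ (fun k _ => (f1 k).2.2.right_mem)
      (fun k _ => w1 k) ?_ (fun i _ j _ hij => d1 i j hij)
    intro k hk
    rw [hB1, Finset.mem_filter] at hk
    obtain ⟨u, hu1, hu2⟩ := Set.not_disjoint_iff.1 hk.2
    exact ((hl2 u hu2).mono_set Set.subset_union_left).trans
      ((g1 k u hu1).2.mono_set Set.subset_union_right)
  have cB2 : B2.card ≤ K := by
    refine hK M F m hG hR hm hE a₁ a₂ hane ha1.1 ha1.2 ha2.1 ha2.2 τ₁ τ₂ hτ (Fin n) B2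
      (fun k => Sum.inl (t₂ k)) (fun k _ => snk2 k) Φ₂ (fun k _ => (f2 k).2.2.right_mem)
      ?_ (fun k _ => w2 k) (fun i _ j _ hij => d2 i j hij)
    intro k hk
    rw [hB2, Finset.mem_filter] at hk
    obtain ⟨u, hu1, hu2⟩ := Set.not_disjoint_iff.1 hk.2
    exact ((hl1 u hu2).mono_set Set.subset_union_left).trans
      ((g2 k u hu1).2.mono_set Set.subset_union_right)
  -- each good `Φ₁ k` meets few `Φ₂ l`
  have cM : ∀ k, k ∉ B1 → (Finset.univ.filter (fun l => ¬ Disjoint (Φ₂ l) (Φ₁ k))).card ≤ K := by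
    intro k hk
    have hkd : Disjoint (Φ₁ k) τ₂ := by
      by_contra hc
      exact hk (by rw [hB1, Finset.mem_filter]; exact ⟨Finset.mem_univ _, hc⟩)
    refine hK M F m hG hR hm hE a₁ a₂ hane ha1.1 ha1.2 ha2.1 ha2.2 (τ₁ ∪ Φ₁ k) τ₂
      (Set.disjoint_union_left.2 ⟨hτ, hkd⟩) (Fin n) _
      (fun l => Sum.inl (t₂ l)) (fun l _ => snk2 l) Φ₂ (fun l _ => (f2 l).2.2.right_mem)
      ?_ (fun l _ => w2 l) (fun i _ j _ hij => d2 i j hij)
    intro l hl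
    rw [Finset.mem_filter] at hl
    obtain ⟨u, hu1, hu2⟩ := Set.not_disjoint_iff.1 hl.2
    have s2 : RIn (F.D m) (τ₁ ∪ Φ₁ k) (Sum.inl a₁) u :=
      ((hr1.mono_set Set.subset_union_left).tail (f1 k).1 (Or.inr (f1 k).2.2.left_mem)).trans
        ((g1 k u hu2).1.mono_set Set.subset_union_right)
    exact (s2.mono_set Set.subset_union_left).trans
      ((g2 l u hu1).2.mono_set Set.subset_union_right)
  -- choose the indices
  have cG1 : N ≤ (Finset.univ \ B1).card := by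
    have h3 := Finset.le_card_sdiff B1 (Finset.univ : Finset (Fin n))
    rw [Finset.card_univ, Fintype.card_fin] at h3
    omega
  obtain ⟨I1, hI1, cI1⟩ := Finset.exists_subset_card_eq cG1
  have hI1' : ∀ k ∈ I1, k ∉ B1 := fun k hk => (Finset.mem_sdiff.1 (hI1 hk)).2
  set Bad : Finset (Fin n) := B2 ∪ I1.biUnion (fun k =>
    Finset.univ.filter (fun l => ¬ Disjoint (Φ₂ l) (Φ₁ k))) with hBad
  have cBad : Bad.card ≤ K + K * N := by
    refine (Finset.card_union_le _ _).trans (add_le_add cB2 ?_)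
    refine Finset.card_biUnion_le.trans ?_
    calc ∑ k ∈ I1, (Finset.univ.filter (fun l => ¬ Disjoint (Φ₂ l) (Φ₁ k))).card
        ≤ ∑ _k ∈ I1, K := Finset.sum_le_sum fun k hk => cM k (hI1' k hk)
      _ = K * N := by rw [Finset.sum_const, cI1, smul_eq_mul, mul_comm]
  set I2 : Finset (Fin n) := Finset.univ \ Bad with hI2
  have cI2 : N ≤ I2.card := by
    have h3 := Finset.le_card_sdiff Bad (Finset.univ : Finset (Fin n))
    rw [Finset.card_univ, Fintype.card_fin] at h3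
    rw [hI2]
    omega
  have hI2' : ∀ l ∈ I2, l ∉ B2 ∧ ∀ k ∈ I1, Disjoint (Φ₂ l) (Φ₁ k) := by
    intro l hl
    have h3 := (Finset.mem_sdiff.1 hl).2
    refine ⟨fun h4 => h3 (Finset.mem_union_left _ h4), fun k hk => ?_⟩
    by_contra hc
    apply h3
    apply Finset.mem_union_right
    rw [Finset.mem_biUnion]
    exact ⟨k, hk, Finset.mem_filter.2 ⟨Finset.mem_univ _, hc⟩⟩
  have good1 : ∀ k ∈ I1, Disjoint (Φ₁ k) τ₂ := by
    intro k hk
    by_contra hc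
    exact hI1' k hk (by rw [hB1, Finset.mem_filter]; exact ⟨Finset.mem_univ _, hc⟩)
  have good2 : ∀ l ∈ I2, Disjoint (Φ₂ l) τ₁ := by
    intro l hl
    by_contra hc
    exact (hI2' l hl).1 (by rw [hB2, Finset.mem_filter]; exact ⟨Finset.mem_univ _, hc⟩)
  -- injectivity of the ends
  have inj1 : Function.Injective t₁ := by
    intro i j hij
    by_contra hne'
    exact Set.disjoint_left.1 (d1 i j hne') (f1 i).2.2.right_mem (hij ▸ (f1 j).2.2.right_mem)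
  have inj2 : Function.Injective t₂ := by
    intro i j hij
    by_contra hne'
    exact Set.disjoint_left.1 (d2 i j hne') (f2 i).2.2.right_mem (hij ▸ (f2 j).2.2.right_mem)
  set A1 : Set Vx := τ₁ ∪ ⋃ k ∈ I1, Φ₁ k with hA1
  set A2 : Set Vx := τ₂ ∪ ⋃ l ∈ I2, Φ₂ l with hA2
  have hA : Disjoint A1 A2 := by
    rw [Set.disjoint_left]
    intro u hu1 hu2
    rcases hu1 with hu1 | hu1 <;> rcases hu2 with hu2 | hu2
    · exact Set.disjoint_left.1 hτ hu1 hu2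
    · obtain ⟨l, hl, hu2⟩ := Set.mem_iUnion₂.1 hu2
      exact Set.disjoint_left.1 (good2 l hl) hu2 hu1
    · obtain ⟨k, hk, hu1⟩ := Set.mem_iUnion₂.1 hu1
      exact Set.disjoint_left.1 (good1 k hk) hu1 hu2
    · obtain ⟨k, hk, hu1⟩ := Set.mem_iUnion₂.1 hu1
      obtain ⟨l, hl, hu2⟩ := Set.mem_iUnion₂.1 hu2
      exact Set.disjoint_left.1 ((hI2' l hl).2 k hk) hu2 hu1
  have sub1 : ∀ k ∈ I1, τ₁ ∪ Φ₁ k ⊆ A1 := fun k hk =>
    Set.union_subset_union_right _ (Set.subset_biUnion_of_mem (u := fun k => Φ₁ k) hk)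
  have sub2 : ∀ l ∈ I2, τ₂ ∪ Φ₂ l ⊆ A2 := fun l hl =>
    Set.union_subset_union_right _ (Set.subset_biUnion_of_mem (u := fun l => Φ₂ l) hl)
  have hRT : RTP F m a₁ a₂ {v | Sum.inr v ∈ A1} {v | Sum.inr v ∈ A2} (t₁ '' I1) (t₂ '' I2) := by
    refine ⟨hane, ha1, ha2, ?_, ?_, ?_, ?_, ?_, ?_⟩
    · rintro _ ⟨k, -, rfl⟩
      exact (f1 k).2.1
    · rintro _ ⟨k, -, rfl⟩
      exact (f2 k).2.1
    · rw [Set.disjoint_left]
      rintro _ ⟨k, hk, rfl⟩ ⟨l, hl, he⟩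
      have h3 : (Sum.inl (t₁ k) : Vx) ∈ A1 := sub1 k hk (w1 k).right_mem
      have h4 : (Sum.inl (t₂ l) : Vx) ∈ A2 := sub2 l hl (w2 l).right_mem
      rw [he] at h4
      exact Set.disjoint_left.1 hA h3 h4
    · rw [Set.disjoint_left]
      intro v hv1 hv2
      exact Set.disjoint_left.1 hA hv1 hv2
    · rintro _ ⟨k, hk, rfl⟩
      exact real_walk ha1.2 (f1 k).2.1 ((w1 k).mono_set (sub1 k hk)) (fun v hv => hv)
    · rintro _ ⟨k, hk, rfl⟩
      exact real_walk ha2.2 (f2 k).2.1 ((w2 k).mono_set (sub2 k hk)) (fun v hv => hv)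
  rcases hN a₁ a₂ _ _ _ _ hRT with h3 | h3
  · rw [Set.ncard_image_of_injective _ inj1, Set.ncard_coe_finset, cI1] at h3
    omega
  · rw [Set.ncard_image_of_injective _ inj2, Set.ncard_coe_finset] at h3
    omega

end Pool.Agent.H67.GW
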