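import Pool.Agent.H55.GW.Targets2

/-!
# Common lemmas for BIG, CMB, LI
-/

set_option autoImplicit false

namespace Pool.Agent.H67.GW

open Pool.Agent.H55.GW

variable {W : Type} {D : W → W → Prop} {S T : Set W} {x y z : W}

/-- the vertices of `S` that are reached from `x` and reach `y` inside `S` -/
def trim (D : W → W → Prop) (S : Set W) (x y : W) : Set W := {w | RIn D S x w ∧ RIn D S w y}

theorem trim_sub : trim D S x y ⊆ S := fun _ h => h.1.right_mem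

theorem trim_left {w : W} (h1 : RIn D S x w) (h2 : RIn D S w y) : RIn D (trim D S x y) x w := by
  obtain ⟨hx, h1'⟩ := h1
  induction h1' with
  | refl => exact RIn.refl ⟨RIn.refl hx, h2⟩
  | @tail b c h3 h4 ih =>
    have hb : RIn D S x b := ⟨hx, h3⟩
    exact (ih (RIn.head h4.1 hb.right_mem h2)).tail h4.1 ⟨hb.tail h4.1 h4.2, h2⟩

theorem trim_right {w : W} (h1 : RIn D S x w) (h2 : RIn D S w y) : RIn D (trim D S x y) w y := by
  obtain ⟨hw, h2'⟩ := h2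
  induction h2' using Relation.ReflTransGen.head_induction_on with
  | refl => exact RIn.refl ⟨h1, RIn.refl hw⟩
  | @head b c h3 h4 ih =>
    have hc : RIn D S c y := ⟨h3.2, h4⟩
    exact RIn.head h3.1 ⟨h1, RIn.head h3.1 hw hc⟩ (ih (h1.tail h3.1 h3.2) h3.2)

theorem trim_rIn (h : RIn D S x y) : RIn D (trim D S x y) x y :=
  trim_left h (RIn.refl h.right_mem)

theorem trim_mem_left {w : W} (h : w ∈ trim D S x y) : RIn D (trim D S x y) x w :=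
  trim_left h.1 h.2

theorem trim_mem_right {w : W} (h : w ∈ trim D S x y) : RIn D (trim D S x y) w y :=
  trim_right h.1 h.2

/-- a trimmed linkage -/
theorem lnk_trim {n : ℕ} {X Y : Set W} (h : Lnk D n X Y) :
    ∃ (x y : Fin n → W) (S : Fin n → Set W),
      (∀ i, x i ∈ X ∧ y i ∈ Y ∧ RIn D (S i) (x i) (y i)) ∧
      (∀ i, ∀ u ∈ S i, RIn D (S i) (x i) u ∧ RIn D (S i) u (y i)) ∧
      ∀ i j, i ≠ j → Disjoint (S i) (S j) := by
  obtain ⟨x, y, S, h1, h2⟩ := h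
  exact ⟨x, y, fun i => trim D (S i) (x i) (y i),
    fun i => ⟨(h1 i).1, (h1 i).2.1, trim_rIn (h1 i).2.2⟩,
    fun i u hu => ⟨trim_mem_left hu, trim_mem_right hu⟩,
    fun i j hij => (h2 i j hij).mono trim_sub trim_sub⟩

section frame

variable {F : Frame} {m : ℕ → Vx}

/-- Menger's theorem for the directed graph of a matching -/
theorem menF (hM : T_MEN) {X Y : Set Vx} (hX : X ⊆ F.uni) (hY : Y ⊆ F.uni) (n : ℕ)
    (h : ∀ S : Finset Vx, Sep (F.D m) (S : Set Vx) X Y → n ≤ S.card) : Lnk (F.D m) n X Y :=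
  hM Vx (F.D m) F.uni F.uni_finite (fun _ _ h => Frame.D_uni h) X Y hX hY n h

theorem src_uni : F.src m ⊆ F.uni := by
  rintro x ⟨e, he, -, rfl⟩
  exact Or.inr ⟨e, he, rfl⟩

theorem snk_uni : F.snk m ⊆ F.uni := by
  rintro x ⟨e, he, rfl⟩
  exact Or.inr ⟨e, he.1, rfl⟩

theorem inn_uni : F.inn ⊆ F.uni := by
  rintro x ⟨e, he, rfl⟩
  exact Or.inl ⟨e, he, rfl⟩

/-- a vertex with an in-arc is internal or a sink -/
theorem inn_or_snk {x y : Vx} (h : F.D m x y) : y ∈ F.inn ∨ y ∈ F.snk m := by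
  rcases x with e | u <;> rcases y with e' | v
  · exact absurd h (by simp [Frame.D])
  · exact Or.inl ⟨v, Frame.att_V h.1, rfl⟩
  · exact Or.inr ⟨e', h.2, rfl⟩
  · rcases h with ⟨h, -⟩ | ⟨h, -⟩
    · exact Or.inl ⟨v, Frame.adj_right h, rfl⟩
    · exact Or.inl ⟨v, Frame.adj_left h, rfl⟩

/-- the inner vertices of a walk between real elements are internal -/
theorem real_walk {S : Set Vx} {a p : ℕ} (ha : a ∉ F.base m) (hp : p ∈ F.base m)
    (h : RIn (F.D m) S (Sum.inl a) (Sum.inl p)) {V : Set ℕ} (hV : ∀ v, Sum.inr v ∈ S → v ∈ V) :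
    RIn (F.D m) (({Sum.inl a, Sum.inl p} : Set Vx) ∪ Sum.inr '' V) (Sum.inl a) (Sum.inl p) := by
  set T0 : Set Vx := {Sum.inl a} ∪ Sum.inr '' V with hT0
  have key : (fun y => RIn (F.D m) T0 (Sum.inl a) y ∨ ∃ e ∈ F.base m, y = Sum.inl e ∧
      ∃ z, RIn (F.D m) T0 (Sum.inl a) z ∧ F.D m z (Sum.inl e)) (Sum.inl p) := by
    apply RIn.induct (p := fun y => RIn (F.D m) T0 (Sum.inl a) y ∨ ∃ e ∈ F.base m,
      y = Sum.inl e ∧ ∃ z, RIn (F.D m) T0 (Sum.inl a) z ∧ F.D m z (Sum.inl e)) h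
    · exact Or.inl (RIn.refl (Or.inl rfl))
    · intro u v hu hv huv hcase
      rcases hcase with hc | ⟨e, he, rfl, -⟩
      · rcases v with e | w
        · refine Or.inr ⟨e, ?_, rfl, u, hc, huv⟩
          rcases u with e' | u'
          · exact absurd huv (by simp [Frame.D])
          · exact huv.2
        · exact Or.inl (hc.tail huv (Or.inr ⟨w, hV w hv, rfl⟩))
      · exact absurd huv (Frame.no_out_snk he v)
  rcases key with hc | ⟨e, he, heq, z, hz, hzd⟩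
  · have := hc.right_mem
    rcases this with h1 | ⟨v, -, h1⟩
    · have h2 : p = a := by simpa using h1
      exact absurd (h2 ▸ hp) ha
    · exact absurd h1 (by simp)
  · have hpe : p = e := by simpa using heq
    subst hpe
    have h1 : RIn (F.D m) (({Sum.inl a, Sum.inl p} : Set Vx) ∪ Sum.inr '' V) (Sum.inl a) z := by
      apply hz.mono_set
      rintro w (rfl | hw)
      · exact Or.inl (Or.inl rfl)
      · exact Or.inr hw
    exact h1.tail hzd (Or.inl (Or.inr rfl))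

end frame

/-- LO for a finset of indices -/
theorem lo_fin (hLO : T_LO) (q : ℕ) (hq : 1 < q) (φ : ℕ → ℕ) (hφ : Monotone φ) (c : ℕ) :
    ∃ K : ℕ, ∀ (M : Matroid ℕ) (F : Frame) (m : ℕ → Vx), Gam q M → F.Rep M → F.IsPM m →
    F.Exits m φ → ∀ a₁ a₂ : ℕ, a₁ ≠ a₂ → a₁ ∈ F.E → a₁ ∉ F.base m → a₂ ∈ F.E → a₂ ∉ F.base m →
    ∀ T₁ T₂ : Set Vx, Disjoint T₁ T₂ → ∀ (ι : Type) (J : Finset ι) (w : ι → Vx),
    (∀ i ∈ J, ∀ j ∈ J, w i = w j → i = j) →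
    (∀ i ∈ J, w i ∈ F.inn ∨ w i ∈ F.snk m) → ∀ S₁ S₂ : ι → Set Vx,
    (∀ i ∈ J, RIn (F.D m) (T₁ ∪ S₁ i) (Sum.inl a₁) (w i)) →
    (∀ i ∈ J, RIn (F.D m) (T₂ ∪ S₂ i) (Sum.inl a₂) (w i)) →
    (∀ x, {i | i ∈ J ∧ x ∈ S₁ i}.ncard ≤ c) → (∀ x, {i | i ∈ J ∧ x ∈ S₂ i}.ncard ≤ c) →
    J.card ≤ K := by
  obtain ⟨K, hK⟩ := hLO q hq φ hφ c
  refine ⟨K, ?_⟩
  intro M F m hG hR hm hE a₁ a₂ hne h1 h1' h2 h2' T₁ T₂ hT ι J w hw hw2 S₁ S₂ hS1 hS2 hc1 hc2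
  classical
  let e := J.equivFin.symm
  have hcount : ∀ (S : ι → Set Vx) (x : Vx), {i : Fin J.card | x ∈ S (e i)}.ncard ≤
      {i | i ∈ J ∧ x ∈ S i}.ncard := by
    intro S x
    apply Set.ncard_le_ncard_of_injOn (fun i => ((e i : J) : ι))
    · intro i hi
      exact ⟨(e i).2, hi⟩
    · intro i _ j _ hij
      exact e.injective (Subtype.ext hij)
  refine hK M F m hG hR hm hE a₁ a₂ hne h1 h1' h2 h2' T₁ T₂ hT J.card (fun i => w (e i))
    ?_ (fun i => hw2 _ (e i).2) (fun i => S₁ (e i)) (fun i => S₂ (e i)) (fun i => hS1 _ (e i).2)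
    (fun i => hS2 _ (e i).2) (fun x => (hcount S₁ x).trans (hc1 x))
    (fun x => (hcount S₂ x).trans (hc2 x))
  intro i j hij
  exact e.injective (Subtype.ext (hw _ (e i).2 _ (e j).2 hij))

theorem ncard_le_one_of_disj {ι : Type} (J : Finset ι) (S : ι → Set Vx)
    (h : ∀ i ∈ J, ∀ j ∈ J, i ≠ j → Disjoint (S i) (S j)) (x : Vx) :
    {i | i ∈ J ∧ x ∈ S i}.ncard ≤ 1 := by
  have hfin : {i | i ∈ J ∧ x ∈ S i}.Finite := J.finite_toSet.subset fun i hi => hi.1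
  rw [Set.ncard_le_one hfin]
  intro i hi j hj
  by_contra hne
  exact Set.disjoint_left.1 (h i hi.1 j hj.1 hne) hi.2 hj.2

/-- LO with disjoint sets -/
theorem lo_disj (hLO : T_LO) (q : ℕ) (hq : 1 < q) (φ : ℕ → ℕ) (hφ : Monotone φ) :
    ∃ K : ℕ, ∀ (M : Matroid ℕ) (F : Frame) (m : ℕ → Vx), Gam q M → F.Rep M → F.IsPM m →
    F.Exits m φ → ∀ a₁ a₂ : ℕ, a₁ ≠ a₂ → a₁ ∈ F.E → a₁ ∉ F.base m → a₂ ∈ F.E → a₂ ∉ F.base m →
    ∀ T₁ T₂ : Set Vx, Disjoint T₁ T₂ → ∀ (ι : Type) (J : Finset ι) (w : ι → Vx),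
    (∀ i ∈ J, w i ∈ F.inn ∨ w i ∈ F.snk m) → ∀ S : ι → Set Vx,
    (∀ i ∈ J, w i ∈ S i) →
    (∀ i ∈ J, RIn (F.D m) (T₁ ∪ S i) (Sum.inl a₁) (w i)) →
    (∀ i ∈ J, RIn (F.D m) (T₂ ∪ S i) (Sum.inl a₂) (w i)) →
    (∀ i ∈ J, ∀ j ∈ J, i ≠ j → Disjoint (S i) (S j)) → J.card ≤ K := by
  obtain ⟨K, hK⟩ := lo_fin hLO q hq φ hφ 1
  refine ⟨K, ?_⟩
  intro M F m hG hR hm hE a₁ a₂ hne h1 h1' h2 h2' T₁ T₂ hT ι J w hw2 S hwS hS1 hS2 hd
  refine hK M F m hG hR hm hE a₁ a₂ hne h1 h1' h2 h2' T₁ T₂ hT ι J w ?_ hw2 S S hS1 hS2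
    (ncard_le_one_of_disj J S hd) (ncard_le_one_of_disj J S hd)
  intro i hi j hj hij
  by_contra hne'
  exact Set.disjoint_left.1 (hd i hi j hj hne') (hwS i hi) (hij ▸ hwS j hj)

end Pool.Agent.H67.GW
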